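import Pool.Agent.Lib_c1afad.Words

/-!
# The uniform Bernoulli measure on `ℤ → A`
-/

namespace CurveTrace

open Function MeasureTheory

open scoped ENNReal

variable {A : Type*}

section

variable [Fintype A] [Nonempty A] [MeasurableSpace A] [MeasurableSingletonClass A]

instance : IsProbabilityMeasure (unif A) := by
  unfold unif
  infer_instance

/-- Measure of a cylinder. -/
theorem unif_cyl (x : ℤ → A) (c : ℤ) (n : ℕ) :
    unif A {z | ∀ a : ℕ, a < n → z (c + a) = x (c + a)} =
      ((Fintype.card A : ℝ≥0∞)⁻¹) ^ n := by
  classical
  have e : {z : ℤ → A | ∀ a : ℕ, a < n → z (c + a) = x (c + a)} =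
      Set.pi ((Finset.range n).image fun a : ℕ => c + (a : ℤ) : Finset ℤ)
        (fun i => {x i}) := by
    ext z
    simp
  rw [e, unif, Measure.infinitePi_pi]
  · rw [Finset.prod_image (by intro a _ b _ hab; simpa using hab)]
    simp [PMF.toMeasure_apply_singleton]
  · intro i _
    exact measurableSet_singleton _

theorem measurable_shz (m : ℤ) : Measurable (shz (A := A) m) := by
  apply measurable_pi_lambda
  intro i
  exact measurable_pi_apply _

/-- Shift invariance. -/
theorem unif_shz (m : ℤ) (B : Set (ℤ → A)) (hB : MeasurableSet B) :
    unif A (shz m ⁻¹' B) = unif A B := by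
  have : (unif A).map (shz m) = unif A := by
    classical
    apply Measure.eq_infinitePi
    intro s (t : ℤ → Set A) ht
    rw [Measure.map_apply (measurable_shz m) (.pi s.countable_toSet fun i _ => ht i)]
    have e : shz m ⁻¹' (Set.pi (s : Set ℤ) t) =
        Set.pi ((s.image fun i => i + m : Finset ℤ) : Set ℤ) (fun i => t (i - m)) := by
      ext z
      simp only [Set.mem_preimage, Set.mem_pi, Finset.mem_coe, Finset.mem_image, shz]
      constructor
      · rintro h i ⟨j, hj, rfl⟩
        rw [add_sub_cancel_right]
        exact h j hj
      · intro h i hi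
        have := h (i + m) ⟨i, hi, rfl⟩
        rw [add_sub_cancel_right] at this
        exact this
    rw [e, unif, Measure.infinitePi_pi _ (fun i _ => ht _),
      Finset.prod_image (by intro a _ b _ hab; simpa using hab)]
    apply Finset.prod_congr rfl
    intro i _
    rw [add_sub_cancel_right]
  rw [← Measure.map_apply (measurable_shz m) hB, this]

end

end CurveTrace
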