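import Pool.Agent.Lib_c1afad.Meas

/-!
# Balance: a surjective cellular automaton does not increase the measure of a cylinder
-/

namespace CurveTrace

open Function MeasureTheory ProbabilityTheory

open scoped ENNReal

variable {A : Type*}

theorem dep_cyl (x : ℤ → A) (c : ℤ) (L : ℕ) :
    Dep (Finset.Ico c (c + L)) {z : ℤ → A | ∀ a : ℕ, a < L → z (c + a) = x (c + a)} := by
  intro z z' hzz
  have : ∀ a : ℕ, a < L → z (c + a) = z' (c + a) := by
    intro a ha
    apply hzz
    rw [Finset.mem_Ico]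
    constructor
    · linarith [Int.natCast_nonneg a]
    · have : (a : ℤ) < L := by exact_mod_cast ha
      linarith
  simp only [Set.mem_setOf_eq]
  constructor
  · intro h a ha
    rw [← this a ha]; exact h a ha
  · intro h a ha
    rw [this a ha]; exact h a ha

theorem Dep.preimage {G : (ℤ → A) → (ℤ → A)} {R : ℕ} (hG : HasRadius G R) {a b : ℤ}
    {B : Set (ℤ → A)} (h : Dep (Finset.Ico a b) B) :
    Dep (Finset.Ico (a - R) (b + R)) (G ⁻¹' B) := by
  intro x y hxy
  apply h
  intro i hi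
  rw [Finset.mem_Ico] at hi
  apply hG
  intro j hj
  have hj' := abs_le.1 hj
  apply hxy
  rw [Finset.mem_Ico]
  constructor <;> linarith [hi.1, hi.2]

theorem le_of_pow_le {a b C : ℝ} (hb : 0 ≤ b) (hC : 0 < C)
    (h : ∀ k : ℕ, a ^ k ≤ C * b ^ k) : a ≤ b := by
  by_contra hcon
  push Not at hcon
  have ha0 : 0 < a := lt_of_le_of_lt hb hcon
  have hlt : b / a < 1 := (div_lt_one ha0).2 hcon
  obtain ⟨k, hk⟩ := exists_pow_lt_of_lt_one (y := b / a) (x := 1 / C) (by positivity) hlt
  rw [div_pow, div_lt_div_iff₀ (by positivity) hC] at hk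
  have := h k
  linarith

section

variable [Fintype A] [Nonempty A] [MeasurableSpace A] [MeasurableSingletonClass A]

theorem cyl_le_preimage {G : (ℤ → A) → (ℤ → A)} {R : ℕ} (hc : Comm G) (hG : HasRadius G R)
    (hs : Surjective G) (x : ℤ → A) (c : ℤ) (L : ℕ) :
    ((Fintype.card A : ℝ)⁻¹) ^ L ≤
      (unif A (G ⁻¹' {z : ℤ → A | ∀ a : ℕ, a < L → z (c + a) = x (c + a)})).toReal := by
  set U : Set (ℤ → A) := {z : ℤ → A | ∀ a : ℕ, a < L → z (c + a) = x (c + a)} with hU
  set D := G ⁻¹' U with hD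
  set m := L + 2 * R with hm
  have hDdep : Dep (Finset.Ico (c - R) (c + L + R)) D := (dep_cyl x c L).preimage hG
  have hUdep : Dep (Finset.Ico (c - R) (c + L + R)) U := by
    apply (dep_cyl x c L).mono
    intro i hi
    rw [Finset.mem_Ico] at hi ⊢
    constructor <;> linarith [hi.1, hi.2]
  have hab : c + L + R ≤ (c - R) + (m : ℕ) := by
    rw [hm]; push_cast; linarith
  have hUμ : (unif A U).toReal = ((Fintype.card A : ℝ)⁻¹) ^ L := by
    rw [hU, unif_cyl]
    simp
  rw [← hUμ]
  apply le_of_pow_le ENNReal.toReal_nonneg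
    (C := (Fintype.card A : ℝ) ^ (2 * R)) (by
      have : (0 : ℝ) < Fintype.card A := by exact_mod_cast Fintype.card_pos
      positivity)
  intro k
  obtain ⟨hd1, h1⟩ := indep_translates hab hUdep k
  obtain ⟨_, h2⟩ := indep_translates hab hDdep k
  have hpre : G ⁻¹' {y | ∀ i : ℕ, i < k → shz ((i : ℤ) * m) y ∈ U} =
      {y | ∀ i : ℕ, i < k → shz ((i : ℤ) * m) y ∈ D} := by
    ext y
    simp only [Set.mem_preimage, Set.mem_setOf_eq, hD, hc.shz]
  have hd1' : Dep (Finset.Ico (c - R) (c - R + ((k * m : ℕ) : ℤ)))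
      {y | ∀ i : ℕ, i < k → shz ((i : ℤ) * m) y ∈ U} := by
    have : ((k * m : ℕ) : ℤ) = (k : ℤ) * m := by push_cast; ring
    rw [this]
    exact hd1
  have h3 := le_preimage hG hs hd1'
  rw [hpre, h1, h2] at h3
  have h4 := ENNReal.toReal_mono (by
    apply ENNReal.mul_ne_top
    · exact ENNReal.pow_ne_top (by simp)
    · exact ENNReal.pow_ne_top (measure_ne_top _ _)) h3
  rw [ENNReal.toReal_mul, ENNReal.toReal_pow, ENNReal.toReal_pow, ENNReal.toReal_pow] at h4
  simpa using h4

/-- Balance. -/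
theorem preimage_cyl_le {G : (ℤ → A) → (ℤ → A)} {R : ℕ} (hc : Comm G) (hG : HasRadius G R)
    (hs : Surjective G) (x : ℤ → A) (c : ℤ) (L : ℕ) :
    (unif A (G ⁻¹' {z : ℤ → A | ∀ a : ℕ, a < L → z (c + a) = x (c + a)})).toReal ≤
      ((Fintype.card A : ℝ)⁻¹) ^ L := by
  classical
  let ex : (Fin L → A) → (ℤ → A) := fun v i =>
    if h : (i - c).toNat < L then v ⟨_, h⟩ else Classical.arbitrary A
  have hex : ∀ v (a : ℕ) (ha : a < L), ex v (c + a) = v ⟨a, ha⟩ := by
    intro v a ha
    simp only [ex]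
    have : (c + (a : ℤ) - c).toNat = a := by simp
    simp only [this, ha, dite_true]
  let C : (Fin L → A) → Set (ℤ → A) := fun v =>
    G ⁻¹' {z : ℤ → A | ∀ a : ℕ, a < L → z (c + a) = ex v (c + a)}
  have hCm : ∀ v, MeasurableSet (C v) := fun v =>
    ((dep_cyl (ex v) c L).preimage hG).measurableSet
  have hdisj : ((Finset.univ : Finset (Fin L → A)) : Set (Fin L → A)).PairwiseDisjoint C := by
    intro v _ v' _ hvv
    rw [Function.onFun, Set.disjoint_left]
    intro z hz hz'
    apply hvv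
    funext a
    have e1 := hz a a.2
    have e2 := hz' a a.2
    rw [hex v a a.2] at e1
    rw [hex v' a a.2] at e2
    exact e1.symm.trans e2
  have hsum : ∑ v, (unif A (C v)).toReal ≤ 1 := by
    rw [← ENNReal.toReal_sum (fun v _ => measure_ne_top _ _),
      ← measure_biUnion_finset hdisj (fun v _ => hCm v)]
    have := ENNReal.toReal_mono ENNReal.one_ne_top
      (prob_le_one (μ := unif A) (s := ⋃ v ∈ Finset.univ, C v))
    simpa using this
  let v0 : Fin L → A := fun a => x (c + (a : ℕ))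
  have hC0 : C v0 = G ⁻¹' {z : ℤ → A | ∀ a : ℕ, a < L → z (c + a) = x (c + a)} := by
    ext z
    simp only [C, Set.mem_preimage, Set.mem_setOf_eq]
    constructor
    · intro h a ha
      rw [h a ha, hex v0 a ha]
    · intro h a ha
      rw [h a ha, hex v0 a ha]
  rw [← hC0]
  rw [← Finset.add_sum_erase _ _ (Finset.mem_univ v0)] at hsum
  have hlow : ∑ v ∈ Finset.univ.erase v0, ((Fintype.card A : ℝ)⁻¹) ^ L ≤
      ∑ v ∈ Finset.univ.erase v0, (unif A (C v)).toReal := by
    apply Finset.sum_le_sum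
    intro v _
    exact cyl_le_preimage hc hG hs (ex v) c L
  have hcardpos : (0 : ℝ) < Fintype.card A := by exact_mod_cast Fintype.card_pos
  have hcount : ∑ v ∈ Finset.univ.erase v0, ((Fintype.card A : ℝ)⁻¹) ^ L =
      1 - ((Fintype.card A : ℝ)⁻¹) ^ L := by
    rw [Finset.sum_const, Finset.card_erase_of_mem (Finset.mem_univ _), Finset.card_univ,
      Fintype.card_fun, Fintype.card_fin, nsmul_eq_mul, Nat.cast_sub]
    · push_cast
      rw [sub_mul, one_mul, ← mul_pow, mul_inv_cancel₀ hcardpos.ne', one_pow]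
    · exact Nat.one_le_pow _ _ Fintype.card_pos
  linarith

end

end CurveTrace
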