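import Pool.Agent.Lib_c1afad.Defs

/-!
# Cellular automata on `ℤ → A`: basic facts

Shift, radius, iterates, finiteness of the sets of spatially periodic points, and the
fact that a surjective cellular automaton is pre-injective, with the resulting bound on
the number of spatially periodic preimages of a point.
-/

namespace CurveTrace

open Function

variable {A : Type*}

/-- The shift by an arbitrary integer. -/
def shz (m : ℤ) (x : ℤ → A) : ℤ → A := fun i => x (i + m)

theorem shz_apply (m : ℤ) (x : ℤ → A) (i : ℤ) : shz m x i = x (i + m) := rfl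

theorem shz_zero (x : ℤ → A) : shz 0 x = x := by funext i; simp [shz]

theorem shz_shz (m n : ℤ) (x : ℤ → A) : shz m (shz n x) = shz (m + n) x := by
  funext i; simp [shz, add_assoc]

theorem sh_eq (x : ℤ → A) : sh x = shz 1 x := rfl

theorem iterate_sh (n : ℕ) (x : ℤ → A) : sh^[n] x = shz (n : ℤ) x := by
  induction n with
  | zero => simp [shz_zero]
  | succ n ih =>
    rw [iterate_succ_apply', ih, sh_eq, shz_shz]
    congr 1
    push_cast
    ring

/-- Commutation with the shift. -/
def Comm (F : (ℤ → A) → (ℤ → A)) : Prop := ∀ x, F (sh x) = sh (F x)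

theorem Comm.shz {F : (ℤ → A) → (ℤ → A)} (hF : Comm F) (m : ℤ) (x : ℤ → A) :
    F (shz m x) = shz m (F x) := by
  have h1 : ∀ x, F (CurveTrace.shz 1 x) = CurveTrace.shz 1 (F x) := hF
  have h2 : ∀ x, F (CurveTrace.shz (-1) x) = CurveTrace.shz (-1) (F x) := by
    intro x
    have := h1 (CurveTrace.shz (-1) x)
    rw [shz_shz] at this
    simp only [add_neg_cancel, shz_zero] at this
    rw [this, shz_shz]
    simp [shz_zero]
  induction m using Int.induction_on generalizing x with
  | zero => simp [shz_zero]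
  | succ n ih =>
    rw [add_comm, ← shz_shz, h1, ih, shz_shz]
  | pred n ih =>
    rw [sub_eq_neg_add, ← shz_shz, h2, ih, shz_shz]

theorem Comm.iterate {F : (ℤ → A) → (ℤ → A)} (hF : Comm F) (s : ℕ) : Comm (F^[s]) := by
  intro x
  induction s with
  | zero => rfl
  | succ s ih =>
    rw [iterate_succ_apply', ih, iterate_succ_apply', hF]

theorem HasRadius.iterate {F : (ℤ → A) → (ℤ → A)} {r : ℕ} (hF : HasRadius F r) (s : ℕ) :
    HasRadius (F^[s]) (s * r) := by
  induction s with
  | zero =>
    intro x y i h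
    exact h i (by simp)
  | succ s ih =>
    intro x y i h
    rw [iterate_succ_apply', iterate_succ_apply']
    apply hF
    intro j hj
    apply ih
    intro l hl
    apply h
    have : |l - i| ≤ |l - j| + |j - i| := abs_sub_le l j i
    push_cast at hl ⊢
    nlinarith

/-- Points of spatial period `n`. -/
def Per (A : Type*) (n : ℕ) : Set (ℤ → A) := {x | sh^[n] x = x}

theorem mem_Per {n : ℕ} {x : ℤ → A} : x ∈ Per A n ↔ ∀ i : ℤ, x (i + n) = x i := by
  rw [Per, Set.mem_setOf_eq, iterate_sh]
  constructor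
  · intro h i
    exact congrFun h i
  · intro h
    funext i
    exact h i

theorem Per_add_mul {n : ℕ} {x : ℤ → A} (hx : x ∈ Per A n) (m i : ℤ) :
    x (i + m * n) = x i := by
  rw [mem_Per] at hx
  induction m using Int.induction_on with
  | zero => simp
  | succ k ih =>
    have := hx (i + k * n)
    rw [← ih, ← this]
    congr 1
    ring
  | pred k ih =>
    have := hx (i + (-k - 1) * n)
    rw [← ih, ← this]
    congr 1
    ring

theorem Per_map {F : (ℤ → A) → (ℤ → A)} (hF : Comm F) {n : ℕ} {x : ℤ → A}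
    (hx : x ∈ Per A n) : F x ∈ Per A n := by
  rw [Per, Set.mem_setOf_eq, iterate_sh] at hx ⊢
  rw [← hF.shz, hx]

theorem Per_iterate {F : (ℤ → A) → (ℤ → A)} (hF : Comm F) {n : ℕ} {x : ℤ → A}
    (hx : x ∈ Per A n) (s : ℕ) : F^[s] x ∈ Per A n :=
  Per_map (hF.iterate s) hx

theorem Per_shz {n : ℕ} {x : ℤ → A} (hx : x ∈ Per A n) (m : ℤ) : shz m x ∈ Per A n := by
  rw [mem_Per] at hx ⊢
  intro i
  have := hx (i + m)
  simp only [shz]
  rw [← this]
  congr 1
  ring

theorem Per_mul {n : ℕ} {x : ℤ → A} (hx : x ∈ Per A n) (j : ℕ) : x ∈ Per A (j * n) := by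
  rw [mem_Per]
  intro i
  have := Per_add_mul hx (j : ℤ) i
  rw [← this]
  push_cast
  rfl

/-- Two points of period `n` which agree on a full period are equal. -/
theorem Per_ext {n : ℕ} (hn : 0 < n) {x y : ℤ → A} (hx : x ∈ Per A n) (hy : y ∈ Per A n)
    (c : ℤ) (h : ∀ a : ℕ, a < n → x (c + a) = y (c + a)) : x = y := by
  funext i
  have hn' : (0 : ℤ) < n := by exact_mod_cast hn
  have e : i = (c + ((i - c) % n)) + ((i - c) / n) * n := by
    have := Int.emod_add_mul_ediv (i - c) n
    linarith
  have h0 := Int.emod_nonneg (i - c) hn'.ne'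
  have h1 := Int.emod_lt_of_pos (i - c) hn'
  obtain ⟨a, ha⟩ := Int.eq_ofNat_of_zero_le h0
  rw [e, Per_add_mul hx, Per_add_mul hy, ha]
  apply h
  have : (a : ℤ) < n := by rw [← ha]; exact h1
  exact_mod_cast this

theorem Per_finite [Finite A] {n : ℕ} (hn : 0 < n) : (Per A n).Finite := by
  have : Injective (fun (x : Per A n) (a : Fin n) => x.1 (a : ℕ)) := by
    intro x y hxy
    apply Subtype.ext
    apply Per_ext hn x.2 y.2 0
    intro a ha
    have := congrFun hxy ⟨a, ha⟩
    simpa using this
  exact Finite.of_injective _ this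

/-- Uniform eventual periodicity of a cellular automaton on the points of a given spatial
period. -/
theorem exists_preperiod [Finite A] {F : (ℤ → A) → (ℤ → A)} (hF : Comm F) {n : ℕ}
    (hn : 0 < n) :
    ∃ T P : ℕ, 0 < P ∧ ∀ x ∈ Per A n, F^[T + P] x = F^[T] x := by
  have : Finite (Per A n) := Per_finite hn
  let g : ℕ → (Per A n → Per A n) := fun s x => ⟨F^[s] x.1, Per_iterate hF x.2 s⟩
  obtain ⟨a, b, hab, h⟩ := Finite.exists_ne_map_eq_of_infinite g
  wlog hlt : a < b generalizing a b with H
  · exact H b a hab.symm h.symm (lt_of_le_of_ne (not_lt.1 hlt) hab.symm)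
  refine ⟨a, b - a, by omega, ?_⟩
  intro x hx
  have := congrArg Subtype.val (congrFun h ⟨x, hx⟩)
  simp only [g] at this
  rw [show a + (b - a) = b by omega, ← this]

theorem preperiod_mul {F : (ℤ → A) → (ℤ → A)} {T P : ℕ} {x : ℤ → A}
    (h : F^[T + P] x = F^[T] x) (m : ℕ) : F^[T + m * P] x = F^[T] x := by
  induction m with
  | zero => simp
  | succ m ih =>
    rw [show T + (m + 1) * P = m * P + (T + P) by ring, iterate_add_apply, h,
      ← iterate_add_apply, show m * P + T = T + m * P by ring, ih]

end CurveTrace
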