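import Pool.Agent.Lib_c1afad.Mult

/-!
# Slowly decaying traces give jointly periodic points
-/

namespace CurveTrace

open Function MeasureTheory ProbabilityTheory

open scoped ENNReal

variable {A : Type*}

theorem pow_bound {σ : ℝ} (h0 : 0 ≤ σ) (h1 : σ ≤ 1) (D : ℕ) :
    (1 + D * (1 - σ)) * σ ^ D ≤ 1 := by
  induction D with
  | zero => simp
  | succ D ih =>
    have h2 : σ ^ (D + 1) ≤ 1 := pow_le_one₀ h0 h1
    have h3 : (1 + ((D + 1 : ℕ) : ℝ) * (1 - σ)) * σ ^ (D + 1) =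
        ((1 + D * (1 - σ)) * σ ^ D) * σ + (1 - σ) * σ ^ (D + 1) := by
      push_cast
      ring
    rw [h3]
    nlinarith

theorem decay_words (A : Type*) [Fintype A] [Nonempty A] [MeasurableSpace A]
    [MeasurableSingletonClass A] (l w : ℕ) (hl : 0 < l) :
    ∃ C : ℝ, 0 < C ∧ ∀ (F : (ℤ → A) → (ℤ → A)) (r k : ℕ), Comm F → HasRadius F r →
      Surjective F → 2 * r ≤ w → r + k ≤ w → ∀ h : ℕ → ℤ,
      (∀ s, |h (s + 1) - h s| ≤ (k : ℤ)) → ∀ (t : ℕ) (c : ℕ → ℕ → A),
      C ≤ (unif A (Tr F w h t c)).toReal * Real.log t → ∀ u : ℤ → A,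
      ∃ p : ℕ, 0 < p ∧ ∃ x ∈ JPer F p, ∀ i : ℤ, 0 ≤ i → i < l → x i = u i := by
  classical
  obtain ⟨α, hα⟩ : ∃ α : ℝ, α = Fintype.card A := ⟨_, rfl⟩
  have hα1 : 1 ≤ α := by
    rw [hα]; exact_mod_cast Fintype.card_pos
  have hα0 : 0 < α := by linarith
  have hlR : (1 : ℝ) ≤ l := by exact_mod_cast hl
  have hαl : 1 ≤ α ^ l := one_le_pow₀ hα1
  have hαl0 : 0 < α ^ l := by positivity
  set q : ℝ := (α ^ l - 1) / α ^ l with hq
  have hq0 : 0 ≤ q := div_nonneg (by linarith) hαl0.le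
  have hq1 : q < 1 := by
    rw [hq, div_lt_one hαl0]; linarith
  have hqα : q * α ^ l = α ^ l - 1 := by
    rw [hq]; field_simp
  set κ : ℝ := (1 + q) / 2 with hκ
  have hκ0 : 0 < κ := by rw [hκ]; linarith
  have hκq : q < κ := by rw [hκ]; linarith
  set γ : ℝ := 1 - (1 - q) / (2 * l) with hγ
  have hγ1 : γ < 1 := by
    have : 0 < (1 - q) / (2 * l) := div_pos (by linarith) (by linarith)
    rw [hγ]; linarith
  have hγh : (1 - q) / (2 * l) ≤ 1 / 2 := by
    rw [div_le_div_iff₀ (by linarith) (by norm_num)]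
    nlinarith
  have hγ0 : 0 < γ := by rw [hγ]; linarith
  have hγκ : κ ≤ γ ^ l := by
    have h1 := one_add_mul_le_pow (a := -((1 - q) / (2 * l))) (by linarith) l
    have h2 : 1 + (l : ℝ) * -((1 - q) / (2 * l)) = κ := by
      rw [hκ]; field_simp; ring
    have h3 : 1 + -((1 - q) / (2 * (l : ℝ))) = γ := by rw [hγ]; ring
    rw [h2, h3] at h1
    exact h1
  set σ : ℝ := q / κ with hσ
  have hσ0 : 0 ≤ σ := div_nonneg hq0 hκ0.le
  have hσ1 : σ < 1 := by rw [hσ, div_lt_one hκ0]; exact hκq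
  set G1 : ℝ := 1 + 2 * w + 2 / (1 - γ) with hG1
  have hG1pos : 0 < G1 := by
    have : 0 < 2 / (1 - γ) := div_pos (by norm_num) (by linarith)
    have : (0 : ℝ) ≤ w := by positivity
    rw [hG1]; linarith
  have hlog : 0 ≤ Real.log α := Real.log_nonneg hα1
  have h1σ : 0 < 1 - σ := by linarith
  have hD0 : 0 < 1 / (1 - σ) := by positivity
  refine ⟨l * Real.log α * (1 / (1 - σ) + G1 + 2) + 1, by positivity, ?_⟩
  intro F r k hc hr hs h2 hk h hcv t c hC u
  obtain ⟨S, hS⟩ := Tr_finite_dep (w := w) hr h t c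
  set ε := (unif A (Tr F w h t c)).toReal with hε
  have hε0' : 0 ≤ ε := ENNReal.toReal_nonneg
  have hC1 : 1 ≤ ε * Real.log t := by
    refine le_trans ?_ hC
    have : 0 ≤ l * Real.log α * (1 / (1 - σ) + G1 + 2) := by positivity
    linarith
  have hε0 : 0 < ε := by
    rcases hε0'.lt_or_eq with h0 | h0
    · exact h0
    · rw [← h0] at hC1; linarith
  have hε1 : ε ≤ 1 := by
    have := ENNReal.toReal_mono ENNReal.one_ne_top
      (prob_le_one (μ := unif A) (s := Tr F w h t c))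
    simpa using this
  have hlogt : 0 < Real.log t := by
    by_contra hcon
    push Not at hcon
    nlinarith
  have ht0 : (0 : ℝ) < t := by
    rcases Nat.eq_zero_or_pos t with h0 | h0
    · rw [h0] at hlogt; simp at hlogt
    · exact_mod_cast h0
  -- choice of `M` and `n`
  set M : ℕ := ⌊G1 / ε⌋₊ + 1 with hM
  have hM1 : G1 < M * ε := by
    have := Nat.lt_floor_add_one (G1 / ε)
    rw [div_lt_iff₀ hε0] at this
    rw [hM]; push_cast; exact this
  have hM2 : (M : ℝ) ≤ G1 / ε + 1 := by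
    have := Nat.floor_le (a := G1 / ε) (by positivity)
    rw [hM]; push_cast; linarith
  obtain ⟨n, hn0, hwn, hnM, hret⟩ := exists_return (Tr F w h t c) hS.measurableSet hγ0.le hγ1 w M
    hM1
  have hnret := return_le hc hr h2 hk h hcv t c hwn hn0
  set Sn := (Per A n ∩ Tr F w h t c).ncard with hSn
  have hSnlow : (γ * α) ^ n < Sn := by
    have h3 := lt_of_lt_of_le hret hnret
    rw [← hε, ← mul_assoc, ← hα] at h3
    have h4 := lt_of_mul_lt_mul_right h3 hε0.le
    rw [inv_pow] at h4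
    rw [mul_pow]
    have h5 : 0 < α ^ n := by positivity
    calc γ ^ n * α ^ n < (Sn * (α ^ n)⁻¹) * α ^ n := mul_lt_mul_of_pos_right h4 h5
      _ = Sn := by field_simp
  -- choice of `D` and `J`
  set D : ℕ := ⌊1 / ((1 - σ) * ε)⌋₊ + 1 with hD
  have hD1 : 1 / ((1 - σ) * ε) < D := by
    rw [hD]; push_cast; exact Nat.lt_floor_add_one _
  have hD2 : (D : ℝ) ≤ 1 / ((1 - σ) * ε) + 1 := by
    have := Nat.floor_le (a := 1 / ((1 - σ) * ε)) (by positivity)
    rw [hD]; push_cast; linarith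
  set J : ℕ := D / n + 1 with hJ
  have hJ0 : 0 < J := Nat.succ_pos _
  have hJ1 : D ≤ J * n := by
    have := Nat.lt_mul_div_succ D hn0
    rw [hJ, mul_comm]
    exact this.le
  have hJ2 : J * n ≤ D + n := by
    have := Nat.div_mul_le_self D n
    rw [hJ, add_mul, one_mul]
    omega
  have hlJ : 0 < l * J := Nat.mul_pos hl hJ0
  have hp0 : 0 < l * J * n := Nat.mul_pos hlJ hn0
  have hwp : w ≤ l * J * n := hwn.trans (Nat.le_mul_of_pos_left n hlJ)
  have hpt : Nat.card A ^ (l * J * n) ≤ t := by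
    have h6 : ((l * J * n : ℕ) : ℝ) * Real.log α ≤ Real.log t := by
      have h7 : ((l * J * n : ℕ) : ℝ) ≤ l * (D + M) := by
        have h8 : J * n ≤ D + M := by omega
        have h9 : ((J * n : ℕ) : ℝ) ≤ D + M := by exact_mod_cast h8
        have h9' : ((l * J * n : ℕ) : ℝ) = l * ((J * n : ℕ) : ℝ) := by push_cast; ring
        rw [h9']
        exact mul_le_mul_of_nonneg_left h9 (by linarith)
      have h8 : (D + M : ℝ) ≤ (1 / (1 - σ) + G1 + 2) / ε := by
        have e1 : 1 / ((1 - σ) * ε) = (1 / (1 - σ)) / ε := by field_simp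
        have e2 : (1 / (1 - σ) + G1 + 2) / ε = (1 / (1 - σ)) / ε + G1 / ε + 2 / ε := by ring
        have e3 : 2 ≤ 2 / ε := by
          rw [le_div_iff₀ hε0]; linarith
        rw [e2]
        rw [e1] at hD2
        linarith
      have h9 : ((l * J * n : ℕ) : ℝ) * Real.log α ≤
          (l * ((1 / (1 - σ) + G1 + 2) / ε)) * Real.log α := by
        apply mul_le_mul_of_nonneg_right _ hlog
        refine h7.trans ?_
        apply mul_le_mul_of_nonneg_left h8
        positivity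
      refine h9.trans ?_
      have e4 : (l * ((1 / (1 - σ) + G1 + 2) / ε)) * Real.log α =
          (l * Real.log α * (1 / (1 - σ) + G1 + 2)) / ε := by ring
      rw [e4, div_le_iff₀ hε0, mul_comm (Real.log t)]
      linarith
    have h10 : α ^ (l * J * n) ≤ t := by
      rw [← Real.rpow_natCast, Real.rpow_def_of_pos hα0]
      rw [mul_comm] at h6
      calc Real.exp (Real.log α * ((l * J * n : ℕ) : ℝ)) ≤ Real.exp (Real.log t) :=
            Real.exp_le_exp.2 h6
        _ = t := Real.exp_log ht0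
    rw [Nat.card_eq_fintype_card]
    rw [hα] at h10
    exact_mod_cast h10
  have hcat := concat_card hc hr h2 hk h hcv t c hwn hn0 (l * J) hlJ
  have hmult := mult hc hr hs h2 hk h hcv t c hwp hp0 hpt
  rw [← hε] at hmult
  by_contra hcon
  have hav := avoid_count hc l hl u hcon (J * n) (Nat.mul_pos hJ0 hn0)
  rw [← mul_assoc] at hav
  -- compare
  have hcatR : ((Sn : ℝ)) ^ (l * J) ≤ ((Per A (l * J * n) ∩ Tr F w h t c).ncard : ℝ) := by
    exact_mod_cast hcat
  have havR : ((JPer F (l * J * n)).ncard : ℝ) ≤ (q * α ^ l) ^ (J * n) := by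
    rw [hqα]
    have e5 : ((Nat.card A ^ l - 1 : ℕ) : ℝ) = α ^ l - 1 := by
      rw [Nat.cast_sub (Nat.one_le_pow _ _ (by
        rw [Nat.card_eq_fintype_card]; exact Fintype.card_pos))]
      rw [Nat.card_eq_fintype_card, hα]
      push_cast
      rfl
    rw [← e5]
    exact_mod_cast hav
  have h11 : ε * (κ * α ^ l) ^ (J * n) < ε * (Sn : ℝ) ^ (l * J) := by
    apply mul_lt_mul_of_pos_left _ hε0
    calc (κ * α ^ l) ^ (J * n) ≤ (γ ^ l * α ^ l) ^ (J * n) := by
          apply pow_le_pow_left₀ (by positivity)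
          apply mul_le_mul_of_nonneg_right hγκ hαl0.le
      _ = ((γ * α) ^ n) ^ (l * J) := by
          rw [← mul_pow, ← pow_mul, ← pow_mul]
          congr 1
          ring
      _ < (Sn : ℝ) ^ (l * J) := pow_lt_pow_left₀ hSnlow (by positivity) hlJ.ne'
  have h12 : ε * (κ * α ^ l) ^ (J * n) < (q * α ^ l) ^ (J * n) := by
    calc _ < ε * (Sn : ℝ) ^ (l * J) := h11
      _ ≤ ε * ((Per A (l * J * n) ∩ Tr F w h t c).ncard : ℝ) := by gcongr
      _ ≤ ((JPer F (l * J * n)).ncard : ℝ) := by rw [mul_comm]; exact hmult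
      _ ≤ _ := havR
  have h13 : ε < σ ^ (J * n) := by
    rw [mul_pow, mul_pow, ← mul_assoc] at h12
    have h14 : 0 < (α ^ l) ^ (J * n) := by positivity
    have h15 := lt_of_mul_lt_mul_right h12 h14.le
    rw [hσ, div_pow, lt_div_iff₀ (by positivity)]
    exact h15
  have h16 := pow_bound hσ0 hσ1.le (J * n)
  have h17 : 1 / ((1 - σ) * ε) < ((J * n : ℕ) : ℝ) :=
    lt_of_lt_of_le hD1 (by exact_mod_cast hJ1)
  rw [div_lt_iff₀ (by positivity)] at h17
  have h18 : 0 < σ ^ (J * n) := lt_trans hε0 h13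
  have h19 : (1 : ℝ) < ((J * n : ℕ) : ℝ) * (1 - σ) * σ ^ (J * n) := by
    calc (1 : ℝ) < ((J * n : ℕ) : ℝ) * ((1 - σ) * ε) := h17
      _ = ((J * n : ℕ) : ℝ) * (1 - σ) * ε := by ring
      _ ≤ _ := by
          apply mul_le_mul_of_nonneg_left h13.le
          positivity
  have h20 : (1 + ((J * n : ℕ) : ℝ) * (1 - σ)) * σ ^ (J * n) =
      σ ^ (J * n) + ((J * n : ℕ) : ℝ) * (1 - σ) * σ ^ (J * n) := by ring
  rw [h20] at h16
  linarith

end CurveTrace
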