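import Mathlib

/-!
# Cellular automata on `ℤ → A`: the definitions
-/

namespace CurveTrace

open Function MeasureTheory

variable {A : Type*}

/-- The left shift on `ℤ → A`. -/
def sh (x : ℤ → A) : ℤ → A := fun i => x (i + 1)

/-- `F` has radius `r`: the value of `F x` at `i` depends only on the values of `x` at the
places at distance at most `r` from `i`. -/
def HasRadius (F : (ℤ → A) → (ℤ → A)) (r : ℕ) : Prop :=
  ∀ x y : ℤ → A, ∀ i : ℤ, (∀ j : ℤ, |j - i| ≤ (r : ℤ) → x j = y j) → F x i = F y i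

/-- The jointly periodic points: periodic for the shift and for `F`. -/
def JP (F : (ℤ → A) → (ℤ → A)) : Set (ℤ → A) :=
  {x | (∃ p : ℕ, 0 < p ∧ sh^[p] x = x) ∧ ∃ q : ℕ, 0 < q ∧ F^[q] x = x}

/-- The uniform Bernoulli measure on `ℤ → A`. -/
noncomputable def unif (A : Type*) [Fintype A] [Nonempty A] [MeasurableSpace A] :
    Measure (ℤ → A) :=
  Measure.infinitePi (fun _ : ℤ => (PMF.uniformOfFintype A).toMeasure)

/-- The configurations whose trace along `h`, in windows of width `w`, is `c` up to time `t`. -/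
def Tr (F : (ℤ → A) → (ℤ → A)) (w : ℕ) (h : ℕ → ℤ) (t : ℕ) (c : ℕ → ℕ → A) : Set (ℤ → A) :=
  {x | ∀ s a : ℕ, s ≤ t → a < w → F^[s] x (h s + a) = c s a}

end CurveTrace
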