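import Pool.Agent.Lib_c1afad.Basic

/-!
# Gluing along a curve
-/

namespace CurveTrace

open Function

variable {A : Type*}

theorem ediv_eq {i b n : ℤ} (hn : 0 < n) (h1 : b * n ≤ i) (h2 : i < b * n + n) :
    i / n = b := by
  apply le_antisymm
  · have : i / n < b + 1 := Int.ediv_lt_of_lt_mul hn (by linarith)
    omega
  · exact Int.le_ediv_of_mul_le hn h1

/-- Gluing up to time `t`: points `xb b` such that `xb b` and `xb (b + 1)` have the same trace
up to time `t` in the windows of width `w` along the curve `h + (b + 1) n`.  The configuration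
`X` that follows `xb b` on the block `[h 0 + b n, h 0 + (b + 1) n)` follows at every time
`s ≤ t` the orbit of `xb b` on `[h s + b n, h s + (b + 1) n)`. -/
theorem glueT {F : (ℤ → A) → (ℤ → A)} {r k w n : ℕ} (hr : HasRadius F r)
    (h2 : 2 * r ≤ w) (hk : r + k ≤ w) (hwn : w ≤ n) (hn0 : 0 < n) (h : ℕ → ℤ)
    (hc : ∀ s, |h (s + 1) - h s| ≤ (k : ℤ)) (t : ℕ) (xb : ℤ → ℤ → A)
    (hx : ∀ (b : ℤ) (s a : ℕ), s ≤ t → a < w →
      F^[s] (xb b) (h s + (b + 1) * n + a) = F^[s] (xb (b + 1)) (h s + (b + 1) * n + a))
    (X : ℤ → A) (hX : ∀ i, X i = xb ((i - h 0) / n) i) :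
    ∀ s, s ≤ t → ∀ i, F^[s] X i = F^[s] (xb ((i - h s) / n)) i := by
  have hn : (0 : ℤ) < n := by exact_mod_cast hn0
  have hwn' : (w : ℤ) ≤ n := by exact_mod_cast hwn
  have h2' : 2 * (r : ℤ) ≤ w := by exact_mod_cast h2
  have hk' : (r : ℤ) + k ≤ w := by exact_mod_cast hk
  intro s
  induction s with
  | zero => exact fun _ => hX
  | succ s ih =>
    intro hst
    -- the extended claim at time `s`
    have key : ∀ b i : ℤ, h s + b * n ≤ i → i < h s + b * n + n + w →
        F^[s] X i = F^[s] (xb b) i := by
      intro b i hi1 hi2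
      rw [ih (by omega) i]
      by_cases hlt : i < h s + b * n + n
      · have : (i - h s) / n = b := by
          apply ediv_eq hn <;> nlinarith
        rw [this]
      · push Not at hlt
        have hb : (i - h s) / n = b + 1 := by
          apply ediv_eq hn <;> nlinarith
        rw [hb]
        obtain ⟨a, ha⟩ := Int.eq_ofNat_of_zero_le (a := i - h s - (b + 1) * n) (by nlinarith)
        have haw : a < w := by
          have : (a : ℤ) < w := by rw [← ha]; nlinarith
          exact_mod_cast this
        have := hx b s a (by omega) haw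
        rw [show h s + (b + 1) * n + (a : ℤ) = i by rw [← ha]; ring] at this
        exact this.symm
    intro i
    obtain ⟨b, hb⟩ : ∃ b, (i - h (s + 1)) / n = b := ⟨_, rfl⟩
    have hi1 : h (s + 1) + b * n ≤ i := by
      have := Int.ediv_mul_le (i - h (s + 1)) hn.ne'
      rw [hb] at this
      linarith
    have hi2 : i < h (s + 1) + b * n + n := by
      have := Int.lt_ediv_add_one_mul_self (i - h (s + 1)) hn
      rw [hb] at this
      linarith
    rw [hb]
    have hcs := abs_le.1 (hc s)
    by_cases hlow : h s + b * n + r ≤ i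
    · rw [iterate_succ_apply', iterate_succ_apply']
      apply hr
      intro j hj
      have hj' := abs_le.1 hj
      apply key
      · linarith
      · linarith
    · push Not at hlow
      have e1 : F^[s + 1] X i = F^[s + 1] (xb (b - 1)) i := by
        rw [iterate_succ_apply', iterate_succ_apply']
        apply hr
        intro j hj
        have hj' := abs_le.1 hj
        apply key
        · nlinarith
        · nlinarith
      rw [e1]
      obtain ⟨a, ha⟩ := Int.eq_ofNat_of_zero_le (a := i - h (s + 1) - b * n) (by linarith)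
      have haw : a < w := by
        have : (a : ℤ) < w := by rw [← ha]; linarith
        exact_mod_cast this
      have := hx (b - 1) (s + 1) a hst haw
      rw [show h (s + 1) + (b - 1 + 1) * n + (a : ℤ) = i by rw [← ha]; ring,
        show b - 1 + 1 = b by ring] at this
      exact this

/-- Gluing for all times. -/
theorem glue {F : (ℤ → A) → (ℤ → A)} {r k w n : ℕ} (hr : HasRadius F r)
    (h2 : 2 * r ≤ w) (hk : r + k ≤ w) (hwn : w ≤ n) (hn0 : 0 < n) (h : ℕ → ℤ)
    (hc : ∀ s, |h (s + 1) - h s| ≤ (k : ℤ)) (xb : ℤ → ℤ → A)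
    (hx : ∀ (b : ℤ) (s a : ℕ), a < w →
      F^[s] (xb b) (h s + (b + 1) * n + a) = F^[s] (xb (b + 1)) (h s + (b + 1) * n + a))
    (X : ℤ → A) (hX : ∀ i, X i = xb ((i - h 0) / n) i) :
    ∀ s i, F^[s] X i = F^[s] (xb ((i - h s) / n)) i := fun s =>
  glueT hr h2 hk hwn hn0 h hc s xb (fun b s a _ => hx b s a) X hX s le_rfl

end CurveTrace
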