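import Pool.Agent.Lib_c1afad.Surj

/-!
# Many jointly periodic points from spatially periodic points with the same trace
-/

namespace CurveTrace

open Function

variable {A : Type*}

/-- The points of spatial period `p` that are periodic for `F`. -/
def JPer (F : (ℤ → A) → (ℤ → A)) (p : ℕ) : Set (ℤ → A) :=
  {x | sh^[p] x = x ∧ ∃ q : ℕ, 0 < q ∧ F^[q] x = x}

theorem JPer_subset (F : (ℤ → A) → (ℤ → A)) (p : ℕ) : JPer F p ⊆ Per A p := fun _ hx => hx.1

/-- Every point of spatial period `n` is eventually in `JPer F n`. -/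
theorem iterate_mem_JPer {F : (ℤ → A) → (ℤ → A)} (hc : Comm F) {n T P : ℕ} {x : ℤ → A}
    (hx : x ∈ Per A n) (hP : 0 < P) (h : F^[T + P] x = F^[T] x) : F^[T] x ∈ JPer F n := by
  refine ⟨Per_iterate hc hx T, P, hP, ?_⟩
  rw [← iterate_add_apply, add_comm, h]

/-- Concatenation of `j` points, taken cyclically, in blocks of length `n` starting at `h0`. -/
def cat (n j : ℕ) (hj : 0 < j) (h0 : ℤ) (c : Fin j → ℤ → A) : ℤ → A := fun i =>
  c ⟨(((i - h0) / n) % j).toNat, by
    have h1 : (0 : ℤ) < j := by exact_mod_cast hj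
    have := Int.emod_lt_of_pos ((i - h0) / n) h1
    have := Int.emod_nonneg ((i - h0) / n) h1.ne'
    omega⟩ i

theorem growth [Finite A] {F : (ℤ → A) → (ℤ → A)} {r k w n : ℕ} (hc : Comm F)
    (hr : HasRadius F r) (hs : Surjective F)
    (h2 : 2 * r ≤ w) (hk : r + k ≤ w) (hn0 : 0 < n) (h : ℕ → ℤ)
    (hcv : ∀ s, |h (s + 1) - h s| ≤ (k : ℤ)) (S : Set (ℤ → A)) (hS : S ⊆ Per A n)
    (htr : ∀ x ∈ S, ∀ y ∈ S, ∀ s a : ℕ, a < w → F^[s] x (h s + a) = F^[s] y (h s + a)) :
    ∃ K : ℕ, ∀ j : ℕ, 0 < j → S.ncard ^ j ≤ K * (JPer F (j * n)).ncard := by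
  classical
  have : Fintype A := Fintype.ofFinite A
  obtain ⟨T, P, hP, hTP⟩ := exists_preperiod (A := A) hc hn0
  have hSfin : S.Finite := (Per_finite hn0).subset hS
  rcases lt_or_ge n w with hwn | hwn
  · -- `S` has at most one element
    refine ⟨1, fun j hj => ?_⟩
    have hsub : S.Subsingleton := by
      intro x hx y hy
      apply Per_ext hn0 (hS hx) (hS hy) (h 0)
      intro a ha
      exact htr x hx y hy 0 a (by omega)
    rcases hsub.eq_empty_or_singleton with rfl | ⟨x, rfl⟩
    · simp [hj.ne']
    · simp only [Set.ncard_singleton, one_pow, one_mul]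
      have hx : x ∈ Per A n := hS rfl
      have hfin : (JPer F (j * n)).Finite :=
        (Per_finite (Nat.mul_pos hj hn0)).subset (JPer_subset _ _)
      apply (Set.ncard_pos hfin).2
      exact ⟨_, iterate_mem_JPer hc (Per_mul hx j) hP (hTP x hx)⟩
  · have hn : (0 : ℤ) < n := by exact_mod_cast hn0
    -- two times with the same phase of the curve
    obtain ⟨m, m', hmm, hh⟩ : ∃ m m' : ℕ, m < m' ∧
        (h (T + m * P)) % (n : ℤ) = (h (T + m' * P)) % (n : ℤ) := by
      let g : ℕ → Fin n := fun m => ⟨((h (T + m * P)) % (n : ℤ)).toNat, by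
        have := Int.emod_lt_of_pos (h (T + m * P)) hn
        have := Int.emod_nonneg (h (T + m * P)) hn.ne'
        omega⟩
      obtain ⟨a, b, hab, hg⟩ := Finite.exists_ne_map_eq_of_infinite g
      have hg' : ((h (T + a * P)) % (n : ℤ)) = ((h (T + b * P)) % (n : ℤ)) := by
        have e := congrArg Fin.val hg
        simp only [g] at e
        have e1 := Int.emod_nonneg (h (T + a * P)) hn.ne'
        have e2 := Int.emod_nonneg (h (T + b * P)) hn.ne'
        omega
      rcases lt_or_gt_of_ne hab with hlt | hlt
      · exact ⟨a, b, hlt, hg'⟩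
      · exact ⟨b, a, hlt, hg'.symm⟩
    set s := T + m * P with hsdef
    set s' := T + m' * P with hs'def
    have hss' : s < s' := by
      rw [hsdef, hs'def]
      have : m * P < m' * P := Nat.mul_lt_mul_of_pos_right hmm hP
      omega
    obtain ⟨l, hl⟩ : ∃ l : ℤ, h s' = h s + l * n := by
      have : (n : ℤ) ∣ h s' - h s := by
        apply Int.dvd_of_emod_eq_zero
        rw [Int.sub_emod, hh]
        simp
      obtain ⟨l, hl⟩ := this
      exact ⟨l, by linarith⟩
    have hFs : ∀ x ∈ Per A n, F^[s'] x = F^[s] x := by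
      intro x hx
      rw [hsdef, hs'def, preperiod_mul (hTP x hx), preperiod_mul (hTP x hx)]
    refine ⟨(Nat.card A) ^ (2 * (s * r)), fun j hj => ?_⟩
    have hj' : (0 : ℤ) < j := by exact_mod_cast hj
    have hjn : 0 < j * n := Nat.mul_pos hj hn0
    have : Fintype S := hSfin.fintype
    let X : (Fin j → S) → ℤ → A := fun c => cat n j hj (h 0) (fun q => (c q).1)
    -- the family of points attached to `c`
    let ix : ℤ → Fin j := fun b => ⟨(b % j).toNat, by
      have := Int.emod_lt_of_pos b hj'
      have := Int.emod_nonneg b hj'.ne'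
      omega⟩
    have hix : ∀ b l : ℤ, ix (b + l * j) = ix b := by
      intro b l
      apply Fin.ext
      simp only [ix]
      rw [Int.add_mul_emod_self_right]
    have hXdef : ∀ c i, X c i = (c (ix ((i - h 0) / n))).1 i := fun c i => rfl
    have hglue : ∀ c s i, F^[s] (X c) i = F^[s] ((c (ix ((i - h s) / n))).1) i := by
      intro c
      apply glue hr h2 hk hwn hn0 h hcv (fun b => (c (ix b)).1) _ (X c) (hXdef c)
      intro b s a ha
      have e1 := Per_add_mul (Per_iterate hc (hS (c (ix b)).2) s) (b + 1) (h s + a)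
      have e2 := Per_add_mul (Per_iterate hc (hS (c (ix (b + 1))).2) s) (b + 1) (h s + a)
      rw [show h s + (b + 1) * (n : ℤ) + (a : ℤ) = h s + a + (b + 1) * n by ring, e1, e2]
      exact htr _ (c (ix b)).2 _ (c (ix (b + 1))).2 s a ha
    have hXper : ∀ c, X c ∈ Per A (j * n) := by
      intro c
      rw [mem_Per]
      intro i
      rw [hXdef, hXdef]
      have : (i + ((j * n : ℕ) : ℤ) - h 0) / (n : ℤ) = (i - h 0) / n + 1 * j := by
        rw [show i + ((j * n : ℕ) : ℤ) - h 0 = (i - h 0) + j * n by push_cast; ring,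
          Int.add_mul_ediv_right _ _ hn.ne', one_mul]
      rw [this, hix]
      have := Per_add_mul (hS (c (ix ((i - h 0) / n))).2) (j : ℤ) i
      rw [← this]
      push_cast
      rfl
    -- one turn of time acts as a rotation
    have hrot : ∀ c, F^[s'] (X c) = shz (-(l * n)) (F^[s] (X c)) := by
      intro c
      funext i
      rw [hglue, shz_apply, hglue, hFs _ (hS (c _).2), hl]
      have e1 : (i - (h s + l * (n : ℤ))) / (n : ℤ) = (i + -(l * n) - h s) / n := by
        congr 1
        ring
      rw [e1]
      have := Per_add_mul (Per_iterate hc (hS (c (ix ((i + -(l * (n : ℤ)) - h s) / n))).2) s)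
        (-l) i
      rw [← this]
      congr 1
      ring
    have hrot2 : ∀ c, ∀ q : ℕ, F^[q * (s' - s)] (F^[s] (X c)) =
        shz (-(q * l * n)) (F^[s] (X c)) := by
      intro c q
      induction q with
      | zero => simp [shz_zero]
      | succ q ih =>
        rw [show (q + 1) * (s' - s) = (s' - s) + q * (s' - s) by ring, iterate_add_apply, ih,
          (hc.iterate _).shz, ← iterate_add_apply, show s' - s + s = s' by omega, hrot, shz_shz]
        congr 1
        push_cast
        ring
    have hJ : ∀ c, F^[s] (X c) ∈ JPer F (j * n) := by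
      intro c
      have hp := Per_iterate hc (hXper c) s
      refine ⟨hp, j * (s' - s), Nat.mul_pos hj (by omega), ?_⟩
      rw [hrot2]
      funext i
      rw [shz_apply]
      have := Per_add_mul hp (-l) i
      rw [← this]
      congr 1
      push_cast
      ring
    have hXinj : Injective X := by
      intro c c' hcc
      funext q
      apply Subtype.ext
      apply Per_ext hn0 (hS (c q).2) (hS (c' q).2) (h 0 + (q : ℕ) * n)
      intro a ha
      have ha' : (a : ℤ) < n := by exact_mod_cast ha
      have e : (h 0 + ((q : ℕ) : ℤ) * n + (a : ℤ) - h 0) / (n : ℤ) = (q : ℕ) := by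
        apply ediv_eq hn
        · linarith [Int.natCast_nonneg a]
        · linarith
      have hq : ix ((q : ℕ) : ℤ) = q := by
        apply Fin.ext
        simp only [ix]
        rw [Int.emod_eq_of_lt (by positivity) (by exact_mod_cast q.2)]
        simp
      have := congrFun hcc (h 0 + ((q : ℕ) : ℤ) * n + (a : ℤ))
      rw [hXdef, hXdef, e, hq] at this
      exact this
    have hEfin : (JPer F (j * n)).Finite :=
      (Per_finite hjn).subset (JPer_subset _ _)
    have hcount := Finset.card_le_mul_card_image (f := fun c => F^[s] (X c))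
      (Finset.univ : Finset (Fin j → S)) ((Nat.card A) ^ (2 * (s * r))) (by
        intro e _
        rw [← Finset.card_image_of_injective _ hXinj]
        apply preimages_le (hc.iterate s) (hr.iterate s) (hs.iterate s) hjn e
        · intro x hx
          obtain ⟨c, _, rfl⟩ := Finset.mem_image.1 hx
          exact hXper c
        · intro x hx
          obtain ⟨c, hc', rfl⟩ := Finset.mem_image.1 hx
          exact (Finset.mem_filter.1 hc').2)
    have hcard : (Finset.univ : Finset (Fin j → S)).card = S.ncard ^ j := by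
      rw [Finset.card_univ, Fintype.card_fun, Fintype.card_fin, Set.ncard_eq_toFinset_card' S,
        Set.toFinset_card]
    rw [hcard] at hcount
    refine hcount.trans (Nat.mul_le_mul_left _ ?_)
    rw [Set.ncard_eq_toFinset_card _ hEfin]
    apply Finset.card_le_card
    intro x hx
    obtain ⟨c, _, rfl⟩ := Finset.mem_image.1 hx
    exact hEfin.mem_toFinset.2 (hJ c)

end CurveTrace
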