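import Pool.Agent.Lib_c1afad.Atoms

/-!
# Surjective cellular automata and the uniform measure
-/

namespace CurveTrace

open Function MeasureTheory ProbabilityTheory

open scoped ENNReal

variable {A : Type*}

/-- `B` depends only on the coordinates in `S`. -/
def Dep (S : Finset ℤ) (B : Set (ℤ → A)) : Prop :=
  ∀ x y : ℤ → A, (∀ i ∈ S, x i = y i) → (x ∈ B ↔ y ∈ B)

theorem Dep.mono {S T : Finset ℤ} {B : Set (ℤ → A)} (h : Dep S B) (hST : S ⊆ T) : Dep T B :=
  fun x y hxy => h x y fun i hi => hxy i (hST hi)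

theorem Dep.inter {S T : Finset ℤ} {B C : Set (ℤ → A)} (hB : Dep S B) (hC : Dep T C) :
    Dep (S ∪ T) (B ∩ C) := by
  intro x y hxy
  have h1 := hB x y fun i hi => hxy i (Finset.mem_union_left _ hi)
  have h2 := hC x y fun i hi => hxy i (Finset.mem_union_right _ hi)
  simp only [Set.mem_inter_iff, h1, h2]

theorem Dep.shz {S : Finset ℤ} {B : Set (ℤ → A)} (h : Dep S B) (m : ℤ) :
    Dep (S.image fun i => i + m) (shz m ⁻¹' B) := by
  intro x y hxy
  apply h
  intro i hi
  exact hxy _ (Finset.mem_image_of_mem _ hi)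

theorem Dep.eq_preimage {S : Finset ℤ} {B : Set (ℤ → A)} (h : Dep S B) :
    B = (fun (z : ℤ → A) (i : S) => z i) ⁻¹' ((fun (z : ℤ → A) (i : S) => z i) '' B) := by
  ext x
  constructor
  · intro hx
    exact ⟨x, hx, rfl⟩
  · rintro ⟨y, hy, hyx⟩
    exact (h y x fun i hi => congrFun hyx ⟨i, hi⟩).1 hy

section

variable [Fintype A] [Nonempty A] [MeasurableSpace A] [MeasurableSingletonClass A]

theorem Dep.measurableSet {S : Finset ℤ} {B : Set (ℤ → A)} (h : Dep S B) :
    MeasurableSet B := by
  rw [h.eq_preimage]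
  apply measurable_pi_lambda _ (fun i => measurable_pi_apply _)
  exact (Set.toFinite _).measurableSet

theorem indep_inter {S T : Finset ℤ} {B C : Set (ℤ → A)} (hB : Dep S B) (hC : Dep T C)
    (hST : Disjoint S T) : unif A (B ∩ C) = unif A B * unif A C := by
  have h1 : iIndepFun (fun (i : ℤ) (z : ℤ → A) => z i) (unif A) :=
    iIndepFun_infinitePi (P := fun _ : ℤ => (PMF.uniformOfFintype A).toMeasure)
      (X := fun _ a => a) (fun _ => measurable_id)
  have h2 := h1.indepFun_finset S T hST (fun i => measurable_pi_apply i)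
  have h3 := h2.measure_inter_preimage_eq_mul
    ((fun (z : ℤ → A) (i : S) => z i) '' B) ((fun (z : ℤ → A) (i : T) => z i) '' C)
    (Set.toFinite _).measurableSet (Set.toFinite _).measurableSet
  rw [← hB.eq_preimage, ← hC.eq_preimage] at h3
  exact h3

/-- Products over far apart translates. -/
theorem indep_translates {D : Set (ℤ → A)} {a b : ℤ} {m : ℕ} (hab : b ≤ a + m)
    (hD : Dep (Finset.Ico a b) D) (k : ℕ) :
    Dep (Finset.Ico a (a + k * m)) {y | ∀ i : ℕ, i < k → shz ((i : ℤ) * m) y ∈ D} ∧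
    unif A {y | ∀ i : ℕ, i < k → shz ((i : ℤ) * m) y ∈ D} = (unif A D) ^ k := by
  induction k with
  | zero => 
    constructor
    · intro x y _
      simp
    · simp
  | succ k ih =>
    have e : {y : ℤ → A | ∀ i : ℕ, i < k + 1 → shz ((i : ℤ) * m) y ∈ D} =
        {y | ∀ i : ℕ, i < k → shz ((i : ℤ) * m) y ∈ D} ∩ shz ((k : ℤ) * m) ⁻¹' D := by
      ext y
      simp only [Set.mem_setOf_eq, Set.mem_inter_iff, Set.mem_preimage]
      constructor
      · intro h
        exact ⟨fun i hi => h i (by omega), h k (by omega)⟩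
      · rintro ⟨h1, h2⟩ i hi
        rcases Nat.lt_succ_iff_lt_or_eq.1 hi with h3 | h3
        · exact h1 i h3
        · rw [h3]; exact h2
    have hdisj : Disjoint (Finset.Ico a (a + k * m))
        ((Finset.Ico a b).image fun i => i + (k : ℤ) * m) := by
      rw [Finset.disjoint_left]
      intro i hi hi'
      simp only [Finset.mem_Ico, Finset.mem_image] at hi hi'
      obtain ⟨j, hj, rfl⟩ := hi'
      linarith [hi.2, hj.1]
    refine ⟨?_, ?_⟩
    · rw [e]
      apply (ih.1.inter (hD.shz _)).mono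
      intro i hi
      simp only [Finset.mem_union, Finset.mem_Ico, Finset.mem_image] at hi ⊢
      have hm : (0 : ℤ) ≤ m := by positivity
      have hk : (0 : ℤ) ≤ k := by positivity
      have hkm : (0 : ℤ) ≤ (k : ℤ) * m := by positivity
      push_cast
      rcases hi with hi | ⟨j, hj, rfl⟩
      · constructor
        · exact hi.1
        · linarith [hi.2]
      · constructor
        · linarith [hj.1]
        · linarith [hj.2]
    · rw [e, indep_inter ih.1 (hD.shz _) hdisj, ih.2, unif_shz _ _ hD.measurableSet, pow_succ]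

/-- Surjectivity bounds the measure of a cylinder set by that of its preimage. -/
theorem le_preimage {G : (ℤ → A) → (ℤ → A)} {R : ℕ} (hG : HasRadius G R)
    (hs : Surjective G) {c : ℤ} {L : ℕ} {W : Set (ℤ → A)} 
    (hW : Dep (Finset.Ico c (c + L)) W) :
    unif A W ≤ (Fintype.card A : ℝ≥0∞) ^ (2 * R) * unif A (G ⁻¹' W) := by
  classical
  -- words
  let wd : (ℤ → A) → (Fin L → A) := fun z a => z (c + (a : ℕ))
  let ex : (Fin L → A) → (ℤ → A) := fun v i =>
    if h : (i - c).toNat < L then v ⟨_, h⟩ else Classical.arbitrary A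
  have hex : ∀ v (a : ℕ) (ha : a < L), ex v (c + a) = v ⟨a, ha⟩ := by
    intro v a ha
    simp only [ex]
    have : (c + (a : ℤ) - c).toNat = a := by simp
    simp only [this, ha, dite_true]
  choose x hx using fun v => hs (ex v)
  let V : Finset (Fin L → A) := Finset.univ.filter fun v => ex v ∈ W
  have hWsub : W ⊆ ⋃ v ∈ V, {z : ℤ → A | ∀ a : ℕ, a < L → z (c + a) = ex v (c + a)} := by
    intro z hz
    have hz' : ∀ a : ℕ, a < L → z (c + a) = ex (wd z) (c + a) := by
      intro a ha
      rw [hex _ a ha]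
    simp only [Set.mem_iUnion]
    refine ⟨wd z, ?_, hz'⟩
    simp only [V, Finset.mem_filter, Finset.mem_univ, true_and]
    refine (hW z _ ?_).1 hz
    intro i hi
    rw [Finset.mem_Ico] at hi
    obtain ⟨a, ha⟩ := Int.eq_ofNat_of_zero_le (a := i - c) (by linarith)
    have := hz' a (by omega)
    rw [show c + (a : ℤ) = i by rw [← ha]; ring] at this
    exact this
  have h1 : unif A W ≤ V.card * ((Fintype.card A : ℝ≥0∞)⁻¹) ^ L := by
    calc _ ≤ _ := measure_mono hWsub
      _ ≤ ∑ v ∈ V, unif A {z : ℤ → A | ∀ a : ℕ, a < L → z (c + a) = ex v (c + a)} :=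
          measure_biUnion_finset_le _ _
      _ = _ := by
          simp only [unif_cyl, Finset.sum_const, nsmul_eq_mul]
  have hcylm : ∀ v, MeasurableSet
      {z : ℤ → A | ∀ a : ℕ, a < L + 2 * R → z (c - R + a) = x v (c - R + a)} := by
    intro v
    have : Dep (Finset.Ico (c - R) (c - R + (L + 2 * R : ℕ)))
        {z : ℤ → A | ∀ a : ℕ, a < L + 2 * R → z (c - R + a) = x v (c - R + a)} := by
      intro z z' hzz
      have : ∀ a : ℕ, a < L + 2 * R → z (c - R + a) = z' (c - R + a) := by
        intro a ha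
        apply hzz
        rw [Finset.mem_Ico]
        constructor
        · linarith [Int.natCast_nonneg a]
        · have : (a : ℤ) < (L + 2 * R : ℕ) := by exact_mod_cast ha
          linarith
      simp only [Set.mem_setOf_eq]
      constructor
      · intro h a ha
        rw [← this a ha]; exact h a ha
      · intro h a ha
        rw [this a ha]; exact h a ha
    exact this.measurableSet
  have hmem : ∀ v (z : ℤ → A), (∀ a : ℕ, a < L + 2 * R → z (c - R + a) = x v (c - R + a)) →
      ∀ a : ℕ, a < L → G z (c + a) = ex v (c + a) := by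
    intro v z hz a ha
    rw [← hx v]
    apply hG
    intro j hj
    have hj' := abs_le.1 hj
    obtain ⟨b, hb⟩ := Int.eq_ofNat_of_zero_le (a := j - (c - R)) (by linarith)
    have := hz b (by omega)
    rw [show c - (R : ℤ) + (b : ℤ) = j by rw [← hb]; ring] at this
    exact this
  have h2 : V.card * ((Fintype.card A : ℝ≥0∞)⁻¹) ^ (L + 2 * R) ≤ unif A (G ⁻¹' W) := by
    have hdisj : (V : Set (Fin L → A)).PairwiseDisjoint
        (fun v => {z : ℤ → A | ∀ a : ℕ, a < L + 2 * R → z (c - R + a) = x v (c - R + a)}) := by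
      intro v _ v' _ hvv
      rw [Function.onFun, Set.disjoint_left]
      intro z hz hz'
      apply hvv
      funext a
      have e1 := hmem v z hz a a.2
      have e2 := hmem v' z hz' a a.2
      rw [hex v a a.2] at e1
      rw [hex v' a a.2] at e2
      exact e1.symm.trans e2
    have hsub : (⋃ v ∈ V,
        {z : ℤ → A | ∀ a : ℕ, a < L + 2 * R → z (c - R + a) = x v (c - R + a)}) ⊆ G ⁻¹' W := by
      intro z hz
      simp only [Set.mem_iUnion] at hz
      obtain ⟨v, hv, hz⟩ := hz
      simp only [V, Finset.mem_filter, Finset.mem_univ, true_and] at hv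
      refine (hW _ _ ?_).1 hv
      intro i hi
      rw [Finset.mem_Ico] at hi
      obtain ⟨a, ha⟩ := Int.eq_ofNat_of_zero_le (a := i - c) (by linarith)
      have := hmem v z hz a (by omega)
      rw [show c + (a : ℤ) = i by rw [← ha]; ring] at this
      exact this.symm
    calc _ = ∑ v ∈ V, unif A
          {z : ℤ → A | ∀ a : ℕ, a < L + 2 * R → z (c - R + a) = x v (c - R + a)} := by
            simp only [unif_cyl, Finset.sum_const, nsmul_eq_mul]
      _ = unif A (⋃ v ∈ V,
          {z : ℤ → A | ∀ a : ℕ, a < L + 2 * R → z (c - R + a) = x v (c - R + a)}) :=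
            (measure_biUnion_finset hdisj fun v _ => hcylm v).symm
      _ ≤ _ := measure_mono hsub
  have hc0 : (Fintype.card A : ℝ≥0∞) ≠ 0 := by
    exact_mod_cast (Fintype.card_pos (α := A)).ne'
  have hct : (Fintype.card A : ℝ≥0∞) ≠ ⊤ := by simp
  calc unif A W ≤ V.card * ((Fintype.card A : ℝ≥0∞)⁻¹) ^ L := h1
    _ = (Fintype.card A : ℝ≥0∞) ^ (2 * R) *
        (V.card * ((Fintype.card A : ℝ≥0∞)⁻¹) ^ (L + 2 * R)) := by
        have : (Fintype.card A : ℝ≥0∞) ^ (2 * R) * ((Fintype.card A : ℝ≥0∞)⁻¹) ^ (2 * R) = 1 := by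
          rw [← mul_pow, ENNReal.mul_inv_cancel hc0 hct, one_pow]
        rw [pow_add]
        calc _ = V.card * ((Fintype.card A : ℝ≥0∞)⁻¹) ^ L * 1 := by rw [mul_one]
          _ = _ := by rw [← this]; ring
    _ ≤ _ := by gcongr

end

end CurveTrace
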