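import Pool.Agent.Lib_c1afad.Strip

/-!
# Counting with the uniform measure
-/

namespace CurveTrace

open Function MeasureTheory ProbabilityTheory

open scoped ENNReal

variable {A : Type*}

/-- After `|A| ^ p` steps every point of spatial period `p` is periodic. -/
theorem iterate_mem_JPer_of_le [Finite A] {F : (ℤ → A) → (ℤ → A)} (hc : Comm F) {p : ℕ}
    (hp : 0 < p) {T : ℕ} (hT : Nat.card A ^ p ≤ T) {x : ℤ → A} (hx : x ∈ Per A p) :
    F^[T] x ∈ JPer F p := by
  classical
  have : Fintype A := Fintype.ofFinite A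
  refine ⟨Per_iterate hc hx T, ?_⟩
  -- pigeonhole on the first `|A| ^ p + 1` iterates
  let g : Fin (Nat.card A ^ p + 1) → (Fin p → A) := fun s a => F^[s] x ((a : ℕ) : ℤ)
  have hcard : Fintype.card (Fin p → A) < Fintype.card (Fin (Nat.card A ^ p + 1)) := by
    rw [Fintype.card_fun, Fintype.card_fin, Fintype.card_fin, Nat.card_eq_fintype_card]
    omega
  obtain ⟨a, b, hab, hg⟩ := Fintype.exists_ne_map_eq_of_card_lt g hcard
  have heq : F^[(a : ℕ)] x = F^[(b : ℕ)] x := by
    apply Per_ext hp (Per_iterate hc hx _) (Per_iterate hc hx _) 0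
    intro i hi
    have := congrFun hg ⟨i, hi⟩
    simp only [g] at this
    rw [zero_add]
    exact this
  have hne : (a : ℕ) ≠ (b : ℕ) := fun h => hab (Fin.ext h)
  obtain ⟨i, j, hij, hjT, hFF⟩ : ∃ i j : ℕ, i < j ∧ j ≤ T ∧ F^[i] x = F^[j] x := by
    have ha := a.2
    have hb := b.2
    rcases lt_or_gt_of_ne hne with h | h
    · exact ⟨a, b, h, by omega, heq⟩
    · exact ⟨b, a, h, by omega, heq.symm⟩
  refine ⟨j - i, by omega, ?_⟩
  rw [← iterate_add_apply]
  have e1 : j - i + T = (T - i) + j := by omega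
  have e2 : T = (T - i) + i := by omega
  rw [e1, iterate_add_apply, ← hFF, ← iterate_add_apply, ← e2]

section

variable [Fintype A] [Nonempty A] [MeasurableSpace A] [MeasurableSingletonClass A]

theorem unif_del (h0 : ℤ) (p : ℕ) (B : Set (ℤ → A)) (hB : MeasurableSet B) :
    unif A (del h0 p ⁻¹' B) = unif A B := by
  let e : ℤ → ℤ := fun i => if i < h0 then i else i + p
  have he : Injective e := by
    intro i j hij
    simp only [e] at hij
    split_ifs at hij <;> omega
  have h1 : (unif A).map (fun ω i ↦ ω (e i)) = unif A :=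
    Measure.map_infinitePi_infinitePi_of_inj
      (P := fun _ : ℤ => (PMF.uniformOfFintype A).toMeasure) he
  have h2 : del (A := A) h0 p = fun ω i ↦ ω (e i) := by
    funext ω i
    simp only [del, e]
    split_ifs <;> rfl
  have hm : Measurable (fun (ω : ℤ → A) i ↦ ω (e i)) :=
    measurable_pi_lambda _ fun i => measurable_pi_apply _
  rw [h2, ← Measure.map_apply hm hB, h1]

theorem unif_insert (h0 : ℤ) (p : ℕ) (X : ℤ → A) {S : Finset ℤ} {B : Set (ℤ → A)}
    (hB : Dep S B) :
    (unif A ({z : ℤ → A | ∀ a : ℕ, a < p → z (h0 + a) = X (h0 + a)} ∩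
      del h0 p ⁻¹' B)).toReal = ((Fintype.card A : ℝ)⁻¹) ^ p * (unif A B).toReal := by
  classical
  have hdep : Dep (S.image fun i => if i < h0 then i else i + (p : ℤ)) (del h0 p ⁻¹' B) := by
    intro x y hxy
    apply hB
    intro i hi
    have := hxy _ (Finset.mem_image_of_mem _ hi)
    simp only [del]
    split_ifs at this ⊢
    · exact this
    · exact this
  rw [indep_inter (dep_cyl X h0 p) hdep, unif_cyl, unif_del _ _ _ hB.measurableSet]
  · simp
  · rw [Finset.disjoint_left]
    intro i hi hi'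
    rw [Finset.mem_Ico] at hi
    obtain ⟨j, _, hj⟩ := Finset.mem_image.1 hi'
    split_ifs at hj <;> omega

variable {F : (ℤ → A) → (ℤ → A)} {r k w : ℕ}

/-- Returns of the set `Tr` are controlled by the number of periodic points in `Tr`. -/
theorem return_le (hc : Comm F) (hr : HasRadius F r) (h2 : 2 * r ≤ w) (hk : r + k ≤ w)
    (h : ℕ → ℤ) (hcv : ∀ s, |h (s + 1) - h s| ≤ (k : ℤ)) (t : ℕ) (c : ℕ → ℕ → A) {n : ℕ}
    (hwn : w ≤ n) (hn0 : 0 < n) :
    (unif A (Tr F w h t c ∩ shz (n : ℤ) ⁻¹' Tr F w h t c)).toReal ≤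
      (Per A n ∩ Tr F w h t c).ncard * (((Fintype.card A : ℝ)⁻¹) ^ n *
        (unif A (Tr F w h t c)).toReal) := by
  classical
  obtain ⟨S, hS⟩ := Tr_finite_dep (w := w) hr h t c
  have hfin : (Per A n ∩ Tr F w h t c).Finite := (Per_finite hn0).subset Set.inter_subset_left
  have hsub : Tr F w h t c ∩ shz (n : ℤ) ⁻¹' Tr F w h t c ⊆ ⋃ X ∈ hfin.toFinset,
      ({z : ℤ → A | ∀ a : ℕ, a < n → z (h 0 + a) = X (h 0 + a)} ∩
        del (h 0) n ⁻¹' Tr F w h t c) := by
    rintro z ⟨hz, hz'⟩
    obtain ⟨⟨x, hx1, hx2, hx3⟩, hx4⟩ := wrapT hc hr h2 hk h hcv t c hwn hn0 z hz hz'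
    simp only [Set.mem_iUnion]
    exact ⟨x, hfin.mem_toFinset.2 ⟨hx1, hx2⟩, hx3, hx4⟩
  calc _ ≤ (∑ X ∈ hfin.toFinset, unif A
        ({z : ℤ → A | ∀ a : ℕ, a < n → z (h 0 + a) = X (h 0 + a)} ∩
        del (h 0) n ⁻¹' Tr F w h t c)).toReal := by
        apply ENNReal.toReal_mono
        · exact ENNReal.sum_ne_top.2 fun _ _ => measure_ne_top _ _
        · exact (measure_mono hsub).trans (measure_biUnion_finset_le _ _)
    _ = _ := by
        rw [ENNReal.toReal_sum fun _ _ => measure_ne_top _ _]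
        simp only [unif_insert _ _ _ hS, Finset.sum_const, nsmul_eq_mul]
        rw [Set.ncard_eq_toFinset_card _ hfin]

/-- Multiplicity: a set of periodic points with the same trace of measure `ε` yields many
jointly periodic points. -/
theorem mult (hc : Comm F) (hr : HasRadius F r) (hs : Surjective F) (h2 : 2 * r ≤ w)
    (hk : r + k ≤ w) (h : ℕ → ℤ) (hcv : ∀ s, |h (s + 1) - h s| ≤ (k : ℤ)) (t : ℕ)
    (c : ℕ → ℕ → A) {p : ℕ} (hwp : w ≤ p) (hp : 0 < p) (ht : Nat.card A ^ p ≤ t) :
    (Per A p ∩ Tr F w h t c).ncard * (unif A (Tr F w h t c)).toReal ≤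
      (JPer F p).ncard := by
  classical
  obtain ⟨S, hS⟩ := Tr_finite_dep (w := w) hr h t c
  set ε := (unif A (Tr F w h t c)).toReal with hε
  have hfin : (Per A p ∩ Tr F w h t c).Finite := (Per_finite hp).subset Set.inter_subset_left
  have hEfin : (JPer F p).Finite := (Per_finite hp).subset (JPer_subset _ _)
  set U := hfin.toFinset with hU
  set T := Nat.card A ^ p with hT
  have hapos : (0 : ℝ) < Fintype.card A := by exact_mod_cast Fintype.card_pos
  have hmaps : ∀ X ∈ U, F^[T] X ∈ hEfin.toFinset := by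
    intro X hX
    rw [hEfin.mem_toFinset]
    exact iterate_mem_JPer_of_le hc hp le_rfl (hfin.mem_toFinset.1 hX).1
  have hfib : ∀ e ∈ hEfin.toFinset, ((U.filter fun X => F^[T] X = e).card : ℝ) * ε ≤ 1 := by
    intro e _
    have hdisj : ((U.filter fun X => F^[T] X = e : Finset (ℤ → A)) :
        Set (ℤ → A)).PairwiseDisjoint
        (fun X : ℤ → A => {z : ℤ → A | ∀ a : ℕ, a < p → z (h 0 + a) = X (h 0 + a)} ∩
        del (h 0) p ⁻¹' Tr F w h t c) := by
      intro X hX X' hX' hne
      rw [Function.onFun, Set.disjoint_left]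
      rintro z ⟨hz, _⟩ ⟨hz', _⟩
      apply hne
      rw [Finset.mem_coe, Finset.mem_filter, hfin.mem_toFinset] at hX hX'
      apply Per_ext hp hX.1.1 hX'.1.1 (h 0)
      intro a ha
      rw [← hz a ha, ← hz' a ha]
    have hm : ∀ X : ℤ → A, MeasurableSet
        ({z : ℤ → A | ∀ a : ℕ, a < p → z (h 0 + a) = X (h 0 + a)} ∩
        del (h 0) p ⁻¹' Tr F w h t c) := by
      intro X
      apply ((dep_cyl X (h 0) p).measurableSet).inter
      have : Dep (S.image fun i => if i < h 0 then i else i + (p : ℤ))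
          (del (h 0) p ⁻¹' Tr F w h t c) := by
        intro x y hxy
        apply hS
        intro i hi
        have := hxy _ (Finset.mem_image_of_mem _ hi)
        simp only [del]
        split_ifs at this ⊢
        · exact this
        · exact this
      exact this.measurableSet
    have hsub : (⋃ X ∈ U.filter fun X => F^[T] X = e,
        ({z : ℤ → A | ∀ a : ℕ, a < p → z (h 0 + a) = X (h 0 + a)} ∩
        del (h 0) p ⁻¹' Tr F w h t c)) ⊆
        F^[T] ⁻¹' {z : ℤ → A | ∀ a : ℕ, a < p → z (h T + a) = e (h T + a)} := by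
      intro z hz
      simp only [Set.mem_iUnion] at hz
      obtain ⟨X, hX, hz1, hz2⟩ := hz
      rw [Finset.mem_filter, hfin.mem_toFinset] at hX
      intro a ha
      rw [insert_strip hc hr h2 hk h hcv t c hwp hp hX.1.1 hX.1.2 hz1 hz2 T ht
        (h T + a) (by linarith [Int.natCast_nonneg a])
        (by have : (a : ℤ) < p := by exact_mod_cast ha
            linarith), hX.2]
    have h3 := (ENNReal.toReal_mono (measure_ne_top _ _) (measure_mono (μ := unif A) hsub)).trans
      (preimage_cyl_le (hc.iterate T) (hr.iterate T) (hs.iterate T) e (h T) p)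
    rw [measure_biUnion_finset hdisj fun X _ => hm X,
      ENNReal.toReal_sum fun _ _ => measure_ne_top _ _] at h3
    simp only [unif_insert _ _ _ hS, Finset.sum_const, nsmul_eq_mul] at h3
    have hpos : 0 < ((Fintype.card A : ℝ)⁻¹) ^ p := by positivity
    rw [← hε] at h3
    have h4 : ((U.filter fun X => F^[T] X = e).card : ℝ) * ε * ((Fintype.card A : ℝ)⁻¹) ^ p ≤
        1 * ((Fintype.card A : ℝ)⁻¹) ^ p := by
      calc _ = ((U.filter fun X => F^[T] X = e).card : ℝ) *
          (((Fintype.card A : ℝ)⁻¹) ^ p * ε) := by ring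
        _ ≤ _ := by rw [one_mul]; exact h3
    exact le_of_mul_le_mul_right h4 hpos
  have hcard := Finset.card_eq_sum_card_fiberwise (f := fun X => F^[T] X) (s := U)
    (t := hEfin.toFinset) (fun X hX => hmaps X hX)
  have h5 : (U.card : ℝ) * ε = ∑ e ∈ hEfin.toFinset,
      ((U.filter fun X => F^[T] X = e).card : ℝ) * ε := by
    rw [hcard, ← Finset.sum_mul]
    push_cast
    rfl
  rw [Set.ncard_eq_toFinset_card _ hfin, Set.ncard_eq_toFinset_card _ hEfin, h5]
  calc _ ≤ ∑ e ∈ hEfin.toFinset, (1 : ℝ) := Finset.sum_le_sum hfib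
    _ = _ := by simp

end

end CurveTrace
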