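import Pool.Agent.Lib_c1afad.Transient

/-!
# Counting periodic points which avoid a word
-/

namespace CurveTrace

open Function

variable {A : Type*}

theorem noWord_card_nat [Finite A] [Nonempty A] {n l : ℕ} (hn : 0 < n) (hl : 0 < l)
    (m0 : ℤ → A) :
    (NoWord A n l m0).ncard ≤ (Nat.card A ^ l - 1) ^ (n / l) * Nat.card A ^ l := by
  classical
  have : Fintype A := Fintype.ofFinite A
  have hNfin : (NoWord A n l m0).Finite := (Per_finite hn).subset fun x hx => hx.1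
  have : Fintype (NoWord A n l m0) := hNfin.fintype
  let u' : Fin l → A := fun a => m0 (a : ℕ)
  have hav : ∀ z ∈ NoWord A n l m0, ∀ b : ℤ, (fun a : Fin l => z (b + (a : ℕ))) ≠ u' := by
    intro z hz b hcon
    obtain ⟨i, hi0, hi1, hi⟩ := hz.2 b
    obtain ⟨a, rfl⟩ := Int.eq_ofNat_of_zero_le hi0
    exact hi (congrFun hcon ⟨a, by exact_mod_cast hi1⟩)
  let g : NoWord A n l m0 → (Fin (n / l) → {v : Fin l → A // v ≠ u'}) × (Fin l → A) :=
    fun z => (fun q => ⟨fun a => z.1 (((q : ℕ) : ℤ) * l + (a : ℕ)), hav z.1 z.2 _⟩,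
      fun a => z.1 (((n / l : ℕ) : ℤ) * l + (a : ℕ)))
  have hg : Injective g := by
    intro x y hxy
    apply Subtype.ext
    apply Per_ext hn x.2.1 y.2.1 0
    intro i hi
    have e : ((i / l : ℕ) : ℤ) * l + ((i % l : ℕ) : ℤ) = 0 + (i : ℤ) := by
      rw [zero_add]
      exact_mod_cast Nat.div_add_mod' i l
    by_cases h1 : i / l < n / l
    · have h3 := congrArg Subtype.val (congrFun (congrArg Prod.fst hxy) ⟨i / l, h1⟩)
      have h4 := congrFun h3 ⟨i % l, Nat.mod_lt _ hl⟩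
      simp only [g] at h4
      rw [e] at h4
      exact h4
    · have h2 : i / l = n / l := by
        have := Nat.div_le_div_right (c := l) hi.le
        omega
      have h4 := congrFun (congrArg Prod.snd hxy) ⟨i % l, Nat.mod_lt _ hl⟩
      simp only [g] at h4
      rw [← h2, e] at h4
      exact h4
  have h5 := Fintype.card_le_of_injective g hg
  have h6 : Fintype.card {v : Fin l → A // v ≠ u'} = Nat.card A ^ l - 1 := by
    rw [Fintype.card_subtype_compl (fun v => v = u')]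
    simp [Nat.card_eq_fintype_card]
  rw [Fintype.card_prod, Fintype.card_fun, Fintype.card_fin, Fintype.card_fun,
    Fintype.card_fin, h6] at h5
  rw [Set.ncard_eq_toFinset_card' (NoWord A n l m0), Set.toFinset_card,
    Nat.card_eq_fintype_card (α := A)] at *
  exact h5

/-- Exponential bound with rate smaller than `|A|`. -/
theorem noWord_card (A : Type*) [Finite A] [Nonempty A] {l : ℕ} (hl : 0 < l) :
    ∃ γ C : ℝ, 0 < γ ∧ γ < 1 ∧ 0 < C ∧ ∀ (m0 : ℤ → A) (n : ℕ), 0 < n →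
      ((NoWord A n l m0).ncard : ℝ) ≤ C * (γ * Nat.card A) ^ n := by
  have hcpos : 0 < Nat.card A := Nat.card_pos
  obtain ⟨α, hα⟩ : ∃ α : ℝ, α = Nat.card A := ⟨_, rfl⟩
  have hα1 : 1 ≤ α := by rw [hα]; exact_mod_cast hcpos
  have hα0 : 0 < α := by linarith
  have hlR : (1 : ℝ) ≤ l := by exact_mod_cast hl
  have hαl : 1 ≤ α ^ l := one_le_pow₀ hα1
  have hαl0 : 0 < α ^ l := by positivity
  obtain ⟨q, hq⟩ : ∃ q : ℝ, q = (α ^ l - 1) / α ^ l := ⟨_, rfl⟩
  have hq0 : 0 ≤ q := by rw [hq]; exact div_nonneg (by linarith) hαl0.le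
  have hq1 : q < 1 := by
    rw [hq, div_lt_one hαl0]; linarith
  have hqα : q * α ^ l = α ^ l - 1 := by
    rw [hq]; field_simp
  obtain ⟨γ, hγ⟩ : ∃ γ : ℝ, γ = 1 - (1 - q) / (2 * l) := ⟨_, rfl⟩
  have hγ1 : γ < 1 := by
    have : 0 < (1 - q) / (2 * l) := div_pos (by linarith) (by linarith)
    rw [hγ]; linarith
  have hγh : (1 - q) / (2 * l) ≤ 1 / 2 := by
    rw [div_le_div_iff₀ (by linarith) (by norm_num)]
    nlinarith
  have hγ0 : 0 < γ := by rw [hγ]; linarith
  have hγq : q ≤ γ ^ l := by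
    have h1 := one_add_mul_le_pow (a := -((1 - q) / (2 * l))) (by linarith) l
    have h2 : 1 + (l : ℝ) * -((1 - q) / (2 * l)) = (1 + q) / 2 := by
      field_simp; ring
    have h3 : 1 + -((1 - q) / (2 * (l : ℝ))) = γ := by rw [hγ]; ring
    rw [h2, h3] at h1
    linarith
  refine ⟨γ, α ^ l * (γ ^ l)⁻¹, hγ0, hγ1, by positivity, ?_⟩
  intro m0 n hn
  have h1 : ((NoWord A n l m0).ncard : ℝ) ≤ (α ^ l - 1) ^ (n / l) * α ^ l := by
    have h2 := noWord_card_nat hn hl m0
    have e5 : ((Nat.card A ^ l - 1 : ℕ) : ℝ) = α ^ l - 1 := by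
      rw [Nat.cast_sub (Nat.one_le_pow _ _ hcpos), hα]
      push_cast
      rfl
    rw [← e5, hα]
    exact_mod_cast h2
  rw [← hα]
  have h2 : γ ^ (l * (n / l)) ≤ γ ^ n * (γ ^ l)⁻¹ := by
    rw [← div_eq_mul_inv, le_div_iff₀ (by positivity), ← pow_add]
    apply pow_le_pow_of_le_one hγ0.le hγ1.le
    have := Nat.lt_mul_div_succ n hl
    rw [mul_add, mul_one] at this
    omega
  have h3 : α ^ (l * (n / l)) ≤ α ^ n := by
    apply pow_le_pow_right₀ hα1
    exact Nat.mul_div_le n l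
  calc ((NoWord A n l m0).ncard : ℝ) ≤ (α ^ l - 1) ^ (n / l) * α ^ l := h1
    _ = (q * α ^ l) ^ (n / l) * α ^ l := by rw [hqα]
    _ ≤ (γ ^ l * α ^ l) ^ (n / l) * α ^ l := by
        apply mul_le_mul_of_nonneg_right _ hαl0.le
        apply pow_le_pow_left₀ (by positivity)
        exact mul_le_mul_of_nonneg_right hγq hαl0.le
    _ = γ ^ (l * (n / l)) * α ^ (l * (n / l)) * α ^ l := by
        rw [mul_pow, ← pow_mul, ← pow_mul]
    _ ≤ (γ ^ n * (γ ^ l)⁻¹) * α ^ n * α ^ l := by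
        gcongr
    _ = _ := by
        rw [mul_pow]
        ring

end CurveTrace
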