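import Pool.Agent.Lib_c1afad.Words

/-!
# A cellular automaton has a radius; density from words
-/

namespace CurveTrace

open Function MeasureTheory

open scoped ENNReal

/-- A continuous map that commutes with the shift has a radius. -/
theorem exists_radius {A : Type*} [Finite A] [TopologicalSpace A] [DiscreteTopology A]
    {F : (ℤ → A) → (ℤ → A)} (hcont : Continuous F) (hc : Comm F) : ∃ r, HasRadius F r := by
  classical
  have hφ : Continuous fun x : ℤ → A => F x 0 := (continuous_apply 0).comp hcont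
  -- a radius at every point
  have hloc : ∀ x : ℤ → A, ∃ r : ℕ, ∀ y : ℤ → A, (∀ j : ℤ, |j| ≤ (r : ℤ) → y j = x j) →
      F y 0 = F x 0 := by
    intro x
    have hopen : IsOpen ((fun x : ℤ → A => F x 0) ⁻¹' {F x 0}) :=
      (isOpen_discrete _).preimage hφ
    have hmem : x ∈ (fun x : ℤ → A => F x 0) ⁻¹' {F x 0} := rfl
    have hnh := hopen.mem_nhds hmem
    rw [nhds_pi, Filter.mem_pi] at hnh
    obtain ⟨I, hI, t, ht, htV⟩ := hnh
    obtain ⟨M, hM⟩ : ∃ M : ℕ, ∀ i ∈ I, |i| ≤ (M : ℤ) := by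
      obtain ⟨M, hM⟩ := (hI.image fun i => i.natAbs).bddAbove
      refine ⟨M, fun i hi => ?_⟩
      have := hM (Set.mem_image_of_mem (fun i => i.natAbs) hi)
      rw [Int.abs_eq_natAbs]
      exact_mod_cast this
    refine ⟨M, fun y hy => ?_⟩
    have : y ∈ (fun x : ℤ → A => F x 0) ⁻¹' {F x 0} := by
      apply htV
      intro i hi
      rw [hy i (hM i hi)]
      exact mem_of_mem_nhds (ht i)
    exact this
  choose R hR using hloc
  have hcylopen : ∀ x : ℤ → A, IsOpen {y : ℤ → A | ∀ j : ℤ, |j| ≤ (R x : ℤ) → y j = x j} := by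
    intro x
    have e : {y : ℤ → A | ∀ j : ℤ, |j| ≤ (R x : ℤ) → y j = x j} =
        Set.pi (Finset.Icc (-(R x : ℤ)) (R x : ℤ) : Set ℤ) (fun j => {x j}) := by
      ext y
      simp only [Set.mem_setOf_eq, Set.mem_pi, Finset.coe_Icc, Set.mem_Icc,
        Set.mem_singleton_iff, abs_le]
    rw [e]
    exact isOpen_set_pi (Finset.finite_toSet _) fun j _ => isOpen_discrete _
  obtain ⟨t, ht⟩ := isCompact_univ.elim_finite_subcover
    (fun x : ℤ → A => {y : ℤ → A | ∀ j : ℤ, |j| ≤ (R x : ℤ) → y j = x j}) hcylopen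
    (fun x _ => Set.mem_iUnion.2 ⟨x, fun _ _ => rfl⟩)
  refine ⟨t.sup R, ?_⟩
  have h0 : ∀ x y : ℤ → A, (∀ j : ℤ, |j| ≤ ((t.sup R : ℕ) : ℤ) → x j = y j) →
      F x 0 = F y 0 := by
    intro x y hxy
    have hx := ht (Set.mem_univ x)
    simp only [Set.mem_iUnion] at hx
    obtain ⟨z, hz, hxz⟩ := hx
    have hRz : R z ≤ t.sup R := Finset.le_sup hz
    have e1 : F x 0 = F z 0 := hR z x hxz
    have e2 : F y 0 = F z 0 := by
      apply hR z y
      intro j hj
      rw [← hxy j (hj.trans (by exact_mod_cast hRz))]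
      exact hxz j hj
    rw [e1, e2]
  intro x y i hxy
  have e1 : F x i = F (shz i x) 0 := by rw [hc.shz, shz_apply, zero_add]
  have e2 : F y i = F (shz i y) 0 := by rw [hc.shz, shz_apply, zero_add]
  rw [e1, e2]
  apply h0
  intro j hj
  rw [shz_apply, shz_apply]
  apply hxy
  rw [add_sub_cancel_right]
  exact hj

theorem dense_JP {A : Type*} [TopologicalSpace A] [DiscreteTopology A]
    {F : (ℤ → A) → (ℤ → A)} (hc : ∀ x, F (sh x) = sh (F x))
    (hw : ∀ l : ℕ, 0 < l → ∀ u : ℤ → A, ∃ x ∈ JP F, ∀ i : ℤ, 0 ≤ i → i < l → x i = u i) :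
    Dense (JP F) := by
  apply dense_of_words hc
  intro l hl u
  obtain ⟨x, ⟨⟨p, hp, hpx⟩, hq⟩, hxu⟩ := hw l hl u
  exact ⟨p, hp, x, ⟨hpx, hq⟩, hxu⟩

end CurveTrace
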