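import Pool.Agent.Lib_c1afad.Balance

/-!
# Second moment bound for the return times of a set under the shift
-/

namespace CurveTrace

open Function MeasureTheory ProbabilityTheory

open scoped ENNReal

variable {A : Type*}

theorem sum_symm (a : ℕ → ℕ → ℝ) (ha : ∀ i j, a i j = a j i) (M : ℕ) :
    ∑ i ∈ Finset.range M, ∑ j ∈ Finset.range M, a i j =
      ∑ i ∈ Finset.range M, a i i +
        2 * ∑ i ∈ Finset.range M, ∑ j ∈ Finset.range i, a i j := by
  induction M with
  | zero => simp
  | succ M ih =>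
    simp only [Finset.sum_range_succ, Finset.sum_add_distrib] at ih ⊢
    have : ∑ i ∈ Finset.range M, a i M = ∑ j ∈ Finset.range M, a M j :=
      Finset.sum_congr rfl fun i _ => ha i M
    rw [ih, this]
    ring

section

variable [Fintype A] [Nonempty A] [MeasurableSpace A] [MeasurableSingletonClass A]

theorem second_moment (B : Set (ℤ → A)) (hB : MeasurableSet B) (M : ℕ) :
    (M * (unif A B).toReal) ^ 2 ≤ M * (unif A B).toReal +
      2 * ∑ i ∈ Finset.range M, ∑ j ∈ Finset.range i,
        (unif A (B ∩ shz ((i - j : ℕ) : ℤ) ⁻¹' B)).toReal := by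
  classical
  set ε := (unif A B).toReal with hε
  let C : ℕ → Set (ℤ → A) := fun i => shz (i : ℤ) ⁻¹' B
  have hCm : ∀ i, MeasurableSet (C i) := fun i => measurable_shz _ hB
  have hCμ : ∀ i, (unif A).real (C i) = ε := fun i => by
    rw [Measure.real, unif_shz _ B hB]
  have hCC : ∀ i j : ℕ, j < i → (unif A).real (C i ∩ C j) =
      (unif A (B ∩ shz ((i - j : ℕ) : ℤ) ⁻¹' B)).toReal := by
    intro i j hji
    have e : C i ∩ C j = shz (j : ℤ) ⁻¹' (B ∩ shz ((i - j : ℕ) : ℤ) ⁻¹' B) := by
      ext z
      have e2 : shz ((i - j : ℕ) : ℤ) (shz (j : ℤ) z) = shz (i : ℤ) z := by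
        rw [shz_shz, ← Nat.cast_add, Nat.sub_add_cancel hji.le]
      simp only [C, Set.mem_inter_iff, Set.mem_preimage, e2]
      exact and_comm
    rw [e, Measure.real, unif_shz _ _ (hB.inter (measurable_shz _ hB))]
  let f : (ℤ → A) → ℝ := fun z => ∑ i ∈ Finset.range M, (C i).indicator 1 z
  have hint : ∀ D : Set (ℤ → A), MeasurableSet D →
      Integrable (D.indicator (1 : (ℤ → A) → ℝ)) (unif A) := fun D hD =>
    (integrable_const (1 : ℝ)).indicator hD
  have hf2 : ∀ z, f z ^ 2 =
      ∑ i ∈ Finset.range M, ∑ j ∈ Finset.range M, (C i ∩ C j).indicator (1 : (ℤ → A) → ℝ) z := by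
    intro z
    simp only [f]
    rw [sq, Finset.sum_mul_sum]
    apply Finset.sum_congr rfl
    intro i _
    apply Finset.sum_congr rfl
    intro j _
    rw [Set.inter_indicator_one]
    rfl
  have hnn : 0 ≤ ∫ z, (f z - M * ε) ^ 2 ∂(unif A) := integral_nonneg fun z => sq_nonneg _
  have hexp : ∀ z, (f z - M * ε) ^ 2 =
      (∑ i ∈ Finset.range M, ∑ j ∈ Finset.range M,
        (C i ∩ C j).indicator (1 : (ℤ → A) → ℝ) z) -
      (2 * (M * ε)) * (∑ i ∈ Finset.range M, (C i).indicator (1 : (ℤ → A) → ℝ) z) +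
      (M * ε) ^ 2 := by
    intro z
    rw [← hf2]
    simp only [f]
    ring
  have hI : ∫ z, (f z - M * ε) ^ 2 ∂(unif A) =
      (∑ i ∈ Finset.range M, ∑ j ∈ Finset.range M, (unif A).real (C i ∩ C j)) -
      (2 * (M * ε)) * (∑ i ∈ Finset.range M, (unif A).real (C i)) + (M * ε) ^ 2 := by
    simp only [hexp]
    have i1 : Integrable (fun z => ∑ i ∈ Finset.range M, ∑ j ∈ Finset.range M,
        (C i ∩ C j).indicator (1 : (ℤ → A) → ℝ) z) (unif A) :=
      integrable_finset_sum _ fun i _ => integrable_finset_sum _ fun j _ =>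
        hint _ ((hCm i).inter (hCm j))
    have i2 : Integrable (fun z => (2 * (M * ε)) * (∑ i ∈ Finset.range M,
        (C i).indicator (1 : (ℤ → A) → ℝ) z)) (unif A) :=
      (integrable_finset_sum _ fun i _ => hint _ (hCm i)).const_mul _
    have i3 : Integrable (fun z => (∑ i ∈ Finset.range M, ∑ j ∈ Finset.range M,
        (C i ∩ C j).indicator (1 : (ℤ → A) → ℝ) z) - (2 * (M * ε)) * (∑ i ∈ Finset.range M,
        (C i).indicator (1 : (ℤ → A) → ℝ) z)) (unif A) := i1.sub i2
    rw [integral_add i3 (integrable_const _), integral_sub i1 i2,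
      integral_const_mul, integral_const]
    congr 1
    · congr 1
      · rw [integral_finset_sum _ fun i _ => integrable_finset_sum _ fun j _ =>
          hint _ ((hCm i).inter (hCm j))]
        apply Finset.sum_congr rfl
        intro i _
        rw [integral_finset_sum _ fun j _ => hint _ ((hCm i).inter (hCm j))]
        apply Finset.sum_congr rfl
        intro j _
        exact integral_indicator_one ((hCm i).inter (hCm j))
      · congr 1
        rw [integral_finset_sum _ fun i _ => hint _ (hCm i)]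
        apply Finset.sum_congr rfl
        intro i _
        exact integral_indicator_one (hCm i)
    · simp
  rw [hI, sum_symm (fun i j => (unif A).real (C i ∩ C j))
    (fun i j => by rw [Set.inter_comm])] at hnn
  simp only [Set.inter_self, hCμ, Finset.sum_const, Finset.card_range, nsmul_eq_mul] at hnn
  have hfin : ∑ i ∈ Finset.range M, ∑ j ∈ Finset.range i, (unif A).real (C i ∩ C j) =
      ∑ i ∈ Finset.range M, ∑ j ∈ Finset.range i,
        (unif A (B ∩ shz ((i - j : ℕ) : ℤ) ⁻¹' B)).toReal := by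
    apply Finset.sum_congr rfl
    intro i _
    apply Finset.sum_congr rfl
    intro j hj
    exact hCC i j (Finset.mem_range.1 hj)
  rw [hfin] at hnn
  nlinarith [hnn]

theorem geom_le {γ : ℝ} (h0 : 0 ≤ γ) (h1 : γ < 1) (i : ℕ) :
    ∑ j ∈ Finset.range i, γ ^ (i - j) ≤ 1 / (1 - γ) := by
  have h2 : ∑ j ∈ Finset.range i, γ ^ (i - j) ≤ ∑ j ∈ Finset.range i, γ ^ (i - 1 - j) := by
    apply Finset.sum_le_sum
    intro j hj
    rw [Finset.mem_range] at hj
    apply pow_le_pow_of_le_one h0 h1.le
    omega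
  have h3 : ∑ j ∈ Finset.range i, γ ^ (i - 1 - j) = ∑ j ∈ Finset.range i, γ ^ j :=
    Finset.sum_range_reflect (fun j => γ ^ j) i
  rw [h3] at h2
  refine h2.trans ?_
  rw [geom_sum_eq h1.ne, ← neg_div_neg_eq]
  have : 0 < 1 - γ := by linarith
  rw [neg_sub, neg_sub]
  gcongr
  have := pow_nonneg h0 i
  linarith

/-- Some return is likely. -/
theorem exists_return (B : Set (ℤ → A)) (hB : MeasurableSet B) {γ : ℝ} (h0 : 0 ≤ γ)
    (h1 : γ < 1) (w M : ℕ)
    (hM : 1 + 2 * w + 2 / (1 - γ) < M * (unif A B).toReal) :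
    ∃ n : ℕ, 0 < n ∧ w ≤ n ∧ n < M ∧
      γ ^ n * (unif A B).toReal < (unif A (B ∩ shz (n : ℤ) ⁻¹' B)).toReal := by
  by_contra hcon
  push Not at hcon
  have h1' : 0 < 1 - γ := by linarith
  set ε := (unif A B).toReal with hε
  have hε0 : 0 ≤ ε := ENNReal.toReal_nonneg
  have hpos : 0 < (M : ℝ) * ε := by
    have : 0 ≤ 2 / (1 - γ) := by positivity
    have : (0 : ℝ) ≤ w := by positivity
    linarith
  have hsm := second_moment B hB M
  have hbound : ∀ i ∈ Finset.range M, ∑ j ∈ Finset.range i,
      (unif A (B ∩ shz ((i - j : ℕ) : ℤ) ⁻¹' B)).toReal ≤ ε * (w + 1 / (1 - γ)) := by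
    intro i hi
    rw [Finset.mem_range] at hi
    have h3 : ∀ j ∈ Finset.range i, (unif A (B ∩ shz ((i - j : ℕ) : ℤ) ⁻¹' B)).toReal ≤
        ε * ((if i - j < w then 1 else 0) + γ ^ (i - j)) := by
      intro j hj
      rw [Finset.mem_range] at hj
      have hg : 0 ≤ γ ^ (i - j) := pow_nonneg h0 _
      split_ifs with hw
      · have h4 : (unif A (B ∩ shz ((i - j : ℕ) : ℤ) ⁻¹' B)).toReal ≤ ε :=
          ENNReal.toReal_mono (measure_ne_top _ _) (measure_mono Set.inter_subset_left)
        nlinarith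
      · have h4 := hcon (i - j) (by omega) (by omega) (by omega)
        linarith
    refine (Finset.sum_le_sum h3).trans ?_
    rw [← Finset.mul_sum, Finset.sum_add_distrib]
    apply mul_le_mul_of_nonneg_left _ hε0
    apply add_le_add _ (geom_le h0 h1 i)
    rw [← Finset.sum_filter, Finset.sum_const, nsmul_eq_mul, mul_one]
    have : ((Finset.range i).filter fun j => i - j < w).card ≤ w := by
      calc _ ≤ ((Finset.range w).image fun d => i - d).card := by
            apply Finset.card_le_card
            intro j hj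
            simp only [Finset.mem_filter, Finset.mem_range, Finset.mem_image] at hj ⊢
            exact ⟨i - j, hj.2, by omega⟩
        _ ≤ (Finset.range w).card := Finset.card_image_le
        _ = w := Finset.card_range w
    exact_mod_cast this
  have hsum := Finset.sum_le_sum hbound
  rw [Finset.sum_const, Finset.card_range, nsmul_eq_mul] at hsum
  have h5 : (M * ε) ^ 2 ≤ M * ε * (1 + 2 * w + 2 / (1 - γ)) := by
    have : 2 / (1 - γ) = 2 * (1 / (1 - γ)) := by ring
    rw [this]
    nlinarith [hsm, hsum]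
  rw [sq] at h5
  have h6 := le_of_mul_le_mul_left h5 hpos
  linarith

end

end CurveTrace
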