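import Pool.Agent.Lib_c1afad.Renewal

/-!
# Strips between walls, up to a finite time
-/

namespace CurveTrace

open Function MeasureTheory ProbabilityTheory

open scoped ENNReal

variable {A : Type*}

/-- Remove the block `[h0, h0 + p)`. -/
def del (h0 : ℤ) (p : ℕ) (z : ℤ → A) : ℤ → A := fun i => if i < h0 then z i else z (i + p)

section

variable {F : (ℤ → A) → (ℤ → A)} {r k w : ℕ}

theorem Tr_finite_dep (hr : HasRadius F r) (h : ℕ → ℤ) (t : ℕ) (c : ℕ → ℕ → A) :
    ∃ S : Finset ℤ, Dep S (Tr F w h t c) := by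
  classical
  refine ⟨(Finset.range (t + 1)).biUnion fun s => (Finset.range w).biUnion fun a =>
    Finset.Icc (h s + a - (s * r : ℕ)) (h s + a + (s * r : ℕ)), ?_⟩
  intro x y hxy
  have key : ∀ s a : ℕ, s ≤ t → a < w → F^[s] x (h s + a) = F^[s] y (h s + a) := by
    intro s a hs ha
    apply hr.iterate s
    intro j hj
    apply hxy
    simp only [Finset.mem_biUnion, Finset.mem_range, Finset.mem_Icc]
    have hj' := abs_le.1 hj
    exact ⟨s, by omega, a, ha, by linarith, by linarith⟩
  constructor
  · intro hx s a hs ha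
    rw [← key s a hs ha]
    exact hx s a hs ha
  · intro hx s a hs ha
    rw [key s a hs ha]
    exact hx s a hs ha

/-- Insert a periodic point of trace `c` into a point of trace `c`. -/
theorem insert_strip (hc : Comm F) (hr : HasRadius F r) (h2 : 2 * r ≤ w) (hk : r + k ≤ w)
    (h : ℕ → ℤ) (hcv : ∀ s, |h (s + 1) - h s| ≤ (k : ℤ)) (t : ℕ) (c : ℕ → ℕ → A) {p : ℕ}
    (hwp : w ≤ p) (hp : 0 < p) {X : ℤ → A} (hX : X ∈ Per A p) (hXT : X ∈ Tr F w h t c)
    {z : ℤ → A} (hz1 : ∀ a : ℕ, a < p → z (h 0 + a) = X (h 0 + a))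
    (hz2 : del (h 0) p z ∈ Tr F w h t c) (s : ℕ) (hs : s ≤ t) (i : ℤ) (hi1 : h s ≤ i)
    (hi2 : i < h s + p) : F^[s] z i = F^[s] X i := by
  have hp' : (0 : ℤ) < p := by exact_mod_cast hp
  let xb : ℤ → ℤ → A := fun b =>
    if b < 0 then del (h 0) p z else if b = 0 then X else shz (-(p : ℤ)) (del (h 0) p z)
  have hg := glueT hr h2 hk hwp hp h hcv t xb (by
    intro b s a hs ha
    rcases lt_trichotomy b (-1) with hb | hb | hb
    · have e1 : xb b = del (h 0) p z := by simp only [xb]; rw [if_pos (by omega)]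
      have e2 : xb (b + 1) = del (h 0) p z := by simp only [xb]; rw [if_pos (by omega)]
      rw [e1, e2]
    · have e1 : xb b = del (h 0) p z := by simp only [xb]; rw [if_pos (by omega)]
      have e2 : xb (b + 1) = X := by
        simp only [xb]; rw [if_neg (by omega), if_pos (by omega)]
      rw [e1, e2, hb]
      simp only [neg_add_cancel, zero_mul, add_zero]
      rw [hz2 s a hs ha, hXT s a hs ha]
    · rcases eq_or_lt_of_le (show 0 ≤ b by omega) with hb0 | hb0
      · have e1 : xb b = X := by
          simp only [xb]; rw [if_neg (by omega), if_pos (by omega)]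
        have e2 : xb (b + 1) = shz (-(p : ℤ)) (del (h 0) p z) := by
          simp only [xb]; rw [if_neg (by omega), if_neg (by omega)]
        rw [e1, e2, ← hb0, (hc.iterate s).shz, shz_apply]
        have h3 := Per_add_mul (Per_iterate hc hX s) 1 (h s + a)
        rw [show h s + (0 + 1) * (p : ℤ) + (a : ℤ) = h s + a + 1 * p by ring, h3,
          show h s + (a : ℤ) + 1 * p + -p = h s + a by ring, hz2 s a hs ha, hXT s a hs ha]
      · have e1 : xb b = shz (-(p : ℤ)) (del (h 0) p z) := by
          simp only [xb]; rw [if_neg (by omega), if_neg (by omega)]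
        have e2 : xb (b + 1) = shz (-(p : ℤ)) (del (h 0) p z) := by
          simp only [xb]; rw [if_neg (by omega), if_neg (by omega)]
        rw [e1, e2]) z (by
    intro j
    rcases lt_or_ge j (h 0) with hj | hj
    · have : (j - h 0) / (p : ℤ) < 0 := Int.ediv_neg_of_neg_of_pos (by linarith) hp'
      simp only [xb]
      rw [if_pos this, del, if_pos hj]
    · rcases lt_or_ge j (h 0 + p) with hj2 | hj2
      · have e : (j - h 0) / (p : ℤ) = 0 := by
          apply ediv_eq hp' <;> linarith
        simp only [xb]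
        rw [e, if_neg (by omega), if_pos rfl]
        obtain ⟨a, ha⟩ := Int.eq_ofNat_of_zero_le (a := j - h 0) (by linarith)
        have := hz1 a (by omega)
        rw [show h 0 + (a : ℤ) = j by rw [← ha]; ring] at this
        exact this
      · have e : 1 ≤ (j - h 0) / (p : ℤ) := Int.le_ediv_of_mul_le hp' (by linarith)
        simp only [xb]
        rw [if_neg (by omega), if_neg (by omega), shz_apply, del, if_neg (by omega)]
        congr 1
        ring)
  rw [hg s hs i]
  have e : (i - h s) / (p : ℤ) = 0 := by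
    apply ediv_eq hp' <;> linarith
  simp only [xb]
  rw [e, if_neg (by omega), if_pos rfl]

/-- Wrap: from a point whose trace and whose shifted trace are `c` get a periodic point of
trace `c`; and removing the block keeps the trace. -/
theorem wrapT (hc : Comm F) (hr : HasRadius F r) (h2 : 2 * r ≤ w) (hk : r + k ≤ w)
    (h : ℕ → ℤ) (hcv : ∀ s, |h (s + 1) - h s| ≤ (k : ℤ)) (t : ℕ) (c : ℕ → ℕ → A) {n : ℕ}
    (hwn : w ≤ n) (hn0 : 0 < n) (z : ℤ → A) (hz : z ∈ Tr F w h t c)
    (hz' : shz (n : ℤ) z ∈ Tr F w h t c) :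
    (∃ x ∈ Per A n, x ∈ Tr F w h t c ∧ ∀ a : ℕ, a < n → z (h 0 + a) = x (h 0 + a)) ∧
      del (h 0) n z ∈ Tr F w h t c := by
  have hn : (0 : ℤ) < n := by exact_mod_cast hn0
  have e0 : ∀ s a : ℕ, a < w → (h s + (a : ℤ) - h s) / (n : ℤ) = 0 := by
    intro s a ha
    apply ediv_eq hn
    · simp
    · have : (a : ℤ) < n := by exact_mod_cast (lt_of_lt_of_le ha hwn)
      linarith
  constructor
  · let X : ℤ → A := fun i => z (i - ((i - h 0) / n) * n)
    have hX : ∀ i, X i = (fun b : ℤ => shz (-(b * n)) z) ((i - h 0) / n) i := by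
      intro i
      simp only [X, shz_apply, sub_eq_add_neg]
    have hg := glueT hr h2 hk hwn hn0 h hcv t (fun b : ℤ => shz (-(b * n)) z) (by
      intro b s a hs ha
      rw [(hc.iterate s).shz, (hc.iterate s).shz, shz_apply, shz_apply,
        show h s + (b + 1) * (n : ℤ) + (a : ℤ) + -(b * n) = (h s + a) + n by ring,
        show h s + (b + 1) * (n : ℤ) + (a : ℤ) + -((b + 1) * n) = h s + a by ring,
        hz s a hs ha]
      have := hz' s a hs ha
      rw [(hc.iterate s).shz, shz_apply] at this
      exact this) X hX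
    refine ⟨X, ?_, ?_, ?_⟩
    · rw [mem_Per]
      intro i
      simp only [X]
      have : (i + (n : ℤ) - h 0) / n = (i - h 0) / n + 1 := by
        rw [show i + (n : ℤ) - h 0 = (i - h 0) + 1 * n by ring,
          Int.add_mul_ediv_right _ _ hn.ne']
      rw [this]
      congr 1
      ring
    · intro s a hs ha
      rw [hg s hs, e0 s a ha]
      simp only [zero_mul, neg_zero, shz_zero]
      exact hz s a hs ha
    · intro a ha
      simp only [X]
      have : (h 0 + (a : ℤ) - h 0) / (n : ℤ) = 0 := by
        apply ediv_eq hn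
        · simp
        · have : (a : ℤ) < n := by exact_mod_cast ha
          linarith
      rw [this]
      simp
  · let xb : ℤ → ℤ → A := fun b => if b < 0 then z else shz (n : ℤ) z
    have hg := glueT hr h2 hk hwn hn0 h hcv t xb (by
      intro b s a hs ha
      rcases lt_trichotomy b (-1) with hb | hb | hb
      · have e1 : xb b = z := by simp only [xb]; rw [if_pos (by omega)]
        have e2 : xb (b + 1) = z := by simp only [xb]; rw [if_pos (by omega)]
        rw [e1, e2]
      · have e1 : xb b = z := by simp only [xb]; rw [if_pos (by omega)]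
        have e2 : xb (b + 1) = shz (n : ℤ) z := by simp only [xb]; rw [if_neg (by omega)]
        rw [e1, e2, hb]
        simp only [neg_add_cancel, zero_mul, add_zero]
        rw [hz s a hs ha, hz' s a hs ha]
      · have e1 : xb b = shz (n : ℤ) z := by simp only [xb]; rw [if_neg (by omega)]
        have e2 : xb (b + 1) = shz (n : ℤ) z := by simp only [xb]; rw [if_neg (by omega)]
        rw [e1, e2]) (del (h 0) n z) (by
      intro j
      rcases lt_or_ge j (h 0) with hj | hj
      · have : (j - h 0) / (n : ℤ) < 0 := Int.ediv_neg_of_neg_of_pos (by linarith) hn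
        simp only [xb]
        rw [if_pos this, del, if_pos hj]
      · have : 0 ≤ (j - h 0) / (n : ℤ) := Int.ediv_nonneg (by linarith) hn.le
        simp only [xb]
        rw [if_neg (by omega), del, if_neg (by omega), shz_apply])
    intro s a hs ha
    rw [hg s hs, e0 s a ha]
    simp only [xb]
    rw [if_neg (by omega)]
    exact hz' s a hs ha

/-- Supermultiplicativity. -/
theorem concat_card [Finite A] (hc : Comm F) (hr : HasRadius F r) (h2 : 2 * r ≤ w)
    (hk : r + k ≤ w) (h : ℕ → ℤ) (hcv : ∀ s, |h (s + 1) - h s| ≤ (k : ℤ)) (t : ℕ)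
    (c : ℕ → ℕ → A) {n : ℕ} (hwn : w ≤ n) (hn0 : 0 < n) (j : ℕ) (hj : 0 < j) :
    (Per A n ∩ Tr F w h t c).ncard ^ j ≤ (Per A (j * n) ∩ Tr F w h t c).ncard := by
  classical
  have hn : (0 : ℤ) < n := by exact_mod_cast hn0
  have hj' : (0 : ℤ) < j := by exact_mod_cast hj
  have hjn : 0 < j * n := Nat.mul_pos hj hn0
  set S := Per A n ∩ Tr F w h t c with hSdef
  have hSfin : S.Finite := (Per_finite hn0).subset Set.inter_subset_left
  have hS'fin : (Per A (j * n) ∩ Tr F w h t c).Finite :=
    (Per_finite hjn).subset Set.inter_subset_left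
  have : Fintype S := hSfin.fintype
  have : Fintype ↑(Per A (j * n) ∩ Tr F w h t c) := hS'fin.fintype
  let X : (Fin j → S) → ℤ → A := fun c => cat n j hj (h 0) (fun q => (c q).1)
  let ix : ℤ → Fin j := fun b => ⟨(b % j).toNat, by
    have := Int.emod_lt_of_pos b hj'
    have := Int.emod_nonneg b hj'.ne'
    omega⟩
  have hix : ∀ b l : ℤ, ix (b + l * j) = ix b := by
    intro b l
    apply Fin.ext
    simp only [ix]
    rw [Int.add_mul_emod_self_right]
  have hXdef : ∀ c i, X c i = (c (ix ((i - h 0) / n))).1 i := fun c i => rfl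
  have hglue : ∀ c s, s ≤ t → ∀ i, F^[s] (X c) i = F^[s] ((c (ix ((i - h s) / n))).1) i := by
    intro c
    apply glueT hr h2 hk hwn hn0 h hcv t (fun b => (c (ix b)).1) _ (X c) (hXdef c)
    intro b s a hs ha
    have e1 := Per_add_mul (Per_iterate hc (c (ix b)).2.1 s) (b + 1) (h s + a)
    have e2 := Per_add_mul (Per_iterate hc (c (ix (b + 1))).2.1 s) (b + 1) (h s + a)
    rw [show h s + (b + 1) * (n : ℤ) + (a : ℤ) = h s + a + (b + 1) * n by ring, e1, e2,
      (c (ix b)).2.2 s a hs ha, (c (ix (b + 1))).2.2 s a hs ha]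
  have hXper : ∀ c, X c ∈ Per A (j * n) := by
    intro c
    rw [mem_Per]
    intro i
    rw [hXdef, hXdef]
    have : (i + ((j * n : ℕ) : ℤ) - h 0) / (n : ℤ) = (i - h 0) / n + 1 * j := by
      rw [show i + ((j * n : ℕ) : ℤ) - h 0 = (i - h 0) + j * n by push_cast; ring,
        Int.add_mul_ediv_right _ _ hn.ne', one_mul]
    rw [this, hix]
    have := Per_add_mul (c (ix ((i - h 0) / n))).2.1 (j : ℤ) i
    rw [← this]
    push_cast
    rfl
  have hXT : ∀ c, X c ∈ Tr F w h t ‹ℕ → ℕ → A› := by
    intro d s a hs ha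
    rw [hglue d s hs]
    exact (d _).2.2 s a hs ha
  have hXinj : Injective X := by
    intro c c' hcc
    funext q
    apply Subtype.ext
    apply Per_ext hn0 (c q).2.1 (c' q).2.1 (h 0 + (q : ℕ) * n)
    intro a ha
    have ha' : (a : ℤ) < n := by exact_mod_cast ha
    have e : (h 0 + ((q : ℕ) : ℤ) * n + (a : ℤ) - h 0) / (n : ℤ) = (q : ℕ) := by
      apply ediv_eq hn
      · linarith [Int.natCast_nonneg a]
      · linarith
    have hq : ix ((q : ℕ) : ℤ) = q := by
      apply Fin.ext
      simp only [ix]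
      rw [Int.emod_eq_of_lt (by positivity) (by exact_mod_cast q.2)]
      simp
    have := congrFun hcc (h 0 + ((q : ℕ) : ℤ) * n + (a : ℤ))
    rw [hXdef, hXdef, e, hq] at this
    exact this
  let Y : (Fin j → S) → ↑(Per A (j * n) ∩ Tr F w h t c) := fun d => ⟨X d, hXper d, hXT d⟩
  have hYinj : Injective Y := by
    intro d d' hdd
    exact hXinj (congrArg Subtype.val hdd)
  have := Fintype.card_le_of_injective Y hYinj
  rw [Fintype.card_fun, Fintype.card_fin] at this
  rw [Set.ncard_eq_toFinset_card' S, Set.ncard_eq_toFinset_card' (Per A (j * n) ∩ Tr F w h t c),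
    Set.toFinset_card, Set.toFinset_card]
  exact this

end

end CurveTrace
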