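import Pool.Agent.Lib_c1afad.Glue

/-!
# Surjective cellular automata are pre-injective
-/

namespace CurveTrace

open Function

variable {A : Type*}

/-- The configuration with the given blocks of length `m` at the places `0, m, …, (k-1) m`. -/
noncomputable def ext [Nonempty A] (m k : ℕ) (b : Fin k → Fin m → A) : ℤ → A := fun i =>
  if h : (i / (m : ℤ)).toNat < k ∧ (i % (m : ℤ)).toNat < m then
    b ⟨_, h.1⟩ ⟨_, h.2⟩ else Classical.arbitrary A

theorem ext_eq [Nonempty A] {m k : ℕ} (hm : 0 < m) (z : ℤ → A) (b : Fin k → Fin m → A)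
    (hb : ∀ (q : Fin k) (a : Fin m), b q a = z ((q : ℕ) * m + (a : ℕ))) (i : ℤ) (h0 : 0 ≤ i)
    (h1 : i < k * m) : ext m k b i = z i := by
  have hm' : (0 : ℤ) < m := by exact_mod_cast hm
  have q0 : 0 ≤ i / (m : ℤ) := Int.ediv_nonneg h0 hm'.le
  have q1 : i / (m : ℤ) < k := Int.ediv_lt_of_lt_mul hm' h1
  have a0 : 0 ≤ i % (m : ℤ) := Int.emod_nonneg _ hm'.ne'
  have a1 : i % (m : ℤ) < m := Int.emod_lt_of_pos _ hm'
  have hq : (i / (m : ℤ)).toNat < k := by omega
  have ha : (i % (m : ℤ)).toNat < m := by omega
  rw [ext, dif_pos ⟨hq, ha⟩, hb]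
  congr 1
  simp only
  rw [Int.toNat_of_nonneg q0, Int.toNat_of_nonneg a0]
  have := Int.emod_add_mul_ediv i m
  linarith

/-- The counting step: if every configuration has the same image as one in which no aligned
block of length `m` equals `α`, then `G` is not surjective. -/
theorem counting [Fintype A] [Nonempty A] {G : (ℤ → A) → (ℤ → A)} {R m : ℕ}
    (hG : HasRadius G R) (hm : 0 < m) (α : Fin m → A) (hs : Surjective G)
    (hrep : ∀ z0 : ℤ → A, ∃ z : ℤ → A, G z = G z0 ∧
      ∀ q : ℤ, (fun a : Fin m => z (q * m + (a : ℕ))) ≠ α) : False := by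
  classical
  have hm' : (0 : ℤ) < m := by exact_mod_cast hm
  have main : ∀ k : ℕ, (Fintype.card A) ^ (k * m - 2 * R) ≤ ((Fintype.card A) ^ m - 1) ^ k := by
    intro k
    let ψ : (Fin k → {v : Fin m → A // v ≠ α}) → (Fin (k * m - 2 * R) → A) :=
      fun b t => G (ext m k (fun q => (b q).1)) ((t : ℕ) + R)
    have hψ : Surjective ψ := by
      intro τ
      obtain ⟨z0, hz0⟩ := hs (fun i : ℤ =>
        if h : (i - R).toNat < k * m - 2 * R then τ ⟨_, h⟩ else Classical.arbitrary A)
      obtain ⟨z, hz, hz'⟩ := hrep z0
      refine ⟨fun q => ⟨fun a => z (((q : ℕ) : ℤ) * m + (a : ℕ)), hz' _⟩, ?_⟩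
      funext t
      have ht := t.2
      have e1 : G (ext m k (fun q : Fin k => fun a : Fin m =>
          z (((q : ℕ) : ℤ) * m + (a : ℕ)))) ((t : ℕ) + R) = G z ((t : ℕ) + R) := by
        apply hG
        intro j hj
        have hj' := abs_le.1 hj
        apply ext_eq hm z _ (fun _ _ => rfl)
        · omega
        · have : ((k * m : ℕ) : ℤ) = (k : ℤ) * m := by push_cast; ring
          rw [← this]
          omega
      have e2 : ψ (fun q => ⟨fun a => z (((q : ℕ) : ℤ) * m + (a : ℕ)), hz' _⟩) t =
          G z ((t : ℕ) + R) := e1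
      rw [e2, hz, hz0]
      have : ((((t : ℕ) : ℤ) + R - R).toNat) = (t : ℕ) := by simp
      simp only [this, t.2, dite_true]
    have := Fintype.card_le_of_surjective ψ hψ
    simp only [Fintype.card_fun, Fintype.card_fin, Fintype.card_subtype_compl,
      Fintype.card_unique] at this
    have hc : Fintype.card {v : Fin m → A // v ≠ α} = (Fintype.card A) ^ m - 1 := by
      rw [Fintype.card_subtype_compl (fun v => v = α)]
      simp
    simpa using this
  have hA : 0 < Fintype.card A := Fintype.card_pos
  set N := (Fintype.card A) ^ m with hN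
  have hN0 : 0 < N := pow_pos hA m
  have main2 : ∀ k : ℕ, N ^ k ≤ (N - 1) ^ k * (Fintype.card A) ^ (2 * R) := by
    intro k
    have h1 := main k
    have h2 : N ^ k = (Fintype.card A) ^ (k * m) := by
      rw [hN, ← pow_mul, mul_comm]
    calc N ^ k = (Fintype.card A) ^ (k * m) := h2
      _ ≤ (Fintype.card A) ^ ((k * m - 2 * R) + 2 * R) := by
          apply Nat.pow_le_pow_right hA
          omega
      _ = (Fintype.card A) ^ (k * m - 2 * R) * (Fintype.card A) ^ (2 * R) := pow_add _ _ _
      _ ≤ _ := Nat.mul_le_mul_right _ h1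
  have hlt : ((N - 1 : ℕ) : ℝ) / N < 1 := by
    rw [div_lt_one (by exact_mod_cast hN0)]
    exact_mod_cast Nat.sub_lt hN0 one_pos
  obtain ⟨k, hk⟩ := exists_pow_lt_of_lt_one (y := ((N - 1 : ℕ) : ℝ) / N)
    (x := 1 / ((Fintype.card A : ℝ) ^ (2 * R))) (by positivity) hlt
  have h3 := main2 k
  have h3' : (N : ℝ) ^ k ≤ ((N - 1 : ℕ) : ℝ) ^ k * (Fintype.card A : ℝ) ^ (2 * R) := by
    exact_mod_cast h3
  rw [div_pow, div_lt_div_iff₀ (by positivity) (by positivity)] at hk
  linarith

/-- A surjective cellular automaton is pre-injective: two configurations with the same image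
that differ at finitely many places only are equal. -/
theorem preinjective [Finite A] {G : (ℤ → A) → (ℤ → A)} {R : ℕ} (hc : Comm G)
    (hG : HasRadius G R) (hs : Surjective G) (x y : ℤ → A) (L : ℕ)
    (h0 : ∀ i : ℤ, i < 0 → x i = y i) (h1 : ∀ i : ℤ, (L : ℤ) ≤ i → x i = y i)
    (hxy : G x = G y) : x = y := by
  classical
  have : Fintype A := Fintype.ofFinite A
  by_contra hne
  have hL : 0 < L := by
    rcases Nat.eq_zero_or_pos L with h | h
    · exfalso
      apply hne
      funext i
      rcases lt_or_ge i 0 with hi | hi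
      · exact h0 i hi
      · exact h1 i (by rw [h]; exact_mod_cast hi)
    · exact h
  have : Nonempty A := ⟨x 0⟩
  obtain ⟨i0, hi0⟩ : ∃ i, x i ≠ y i := by
    by_contra hcon
    push Not at hcon
    exact hne (funext hcon)
  have hi1 : 0 ≤ i0 := by
    by_contra hcon
    exact hi0 (h0 i0 (not_le.1 hcon))
  have hi2 : i0 < L := by
    by_contra hcon
    exact hi0 (h1 i0 (not_lt.1 hcon))
  set m : ℕ := L + 4 * R with hm
  have hmpos : 0 < m := by omega
  have hm' : (0 : ℤ) < m := by exact_mod_cast hmpos
  let α : Fin m → A := fun a => x (((a : ℕ) : ℤ) - 2 * R)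
  apply counting hG hmpos α hs
  intro z0
  -- replace the aligned blocks equal to `α`
  let bad : ℤ → Prop := fun q => ∀ a : ℕ, a < m → z0 (q * m + a) = x ((a : ℤ) - 2 * R)
  let z : ℤ → A := fun i => if bad (i / m) then y (i - (i / m) * m - 2 * R) else z0 i
  refine ⟨z, ?_, ?_⟩
  · funext j
    -- either the window meets no place where `z` and `z0` differ
    by_cases hw : ∀ i : ℤ, |i - j| ≤ (R : ℤ) → z i = z0 i
    · exact hG z z0 j hw
    · push Not at hw
      obtain ⟨i, hij, hi⟩ := hw
      have hbad : bad (i / m) := by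
        by_contra hcon
        apply hi
        simp only [z, hcon, if_false]
      set q := i / (m : ℤ) with hq
      have hqi : q * m ≤ i := Int.ediv_mul_le i hm'.ne'
      have hqi2 : i < q * m + m := by
        have := Int.lt_ediv_add_one_mul_self i hm'
        rw [← hq] at this
        linarith
      -- values in the block
      have hz0 : ∀ l : ℤ, q * m ≤ l → l < q * m + m → z0 l = x (l - q * m - 2 * R) := by
        intro l hl1 hl2
        obtain ⟨a, ha⟩ := Int.eq_ofNat_of_zero_le (a := l - q * m) (by linarith)
        have := hbad a (by omega)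
        rw [show q * m + (a : ℤ) = l by rw [← ha]; ring] at this
        rw [this, ha]
      have hz : ∀ l : ℤ, q * m ≤ l → l < q * m + m → z l = y (l - q * m - 2 * R) := by
        intro l hl1 hl2
        have e : l / (m : ℤ) = q := ediv_eq hm' hl1 hl2
        simp only [z, e, hbad, if_true]
      -- the place `i` is inside the inner part
      have hin : x (i - q * m - 2 * R) ≠ y (i - q * m - 2 * R) := by
        intro hcon
        apply hi
        rw [hz i hqi hqi2, hz0 i hqi hqi2, hcon]
      have hin1 : 0 ≤ i - q * m - 2 * R := by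
        by_contra hcon
        exact hin (h0 _ (not_le.1 hcon))
      have hin2 : i - q * m - 2 * R < L := by
        by_contra hcon
        exact hin (h1 _ (not_lt.1 hcon))
      have hij' := abs_le.1 hij
      have hwin : ∀ l : ℤ, |l - j| ≤ (R : ℤ) → q * m ≤ l ∧ l < q * m + m := by
        intro l hl
        have hl' := abs_le.1 hl
        have hmz : (m : ℤ) = L + 4 * R := by rw [hm]; push_cast; ring
        constructor
        · linarith
        · rw [hmz] at hin1 hin2 ⊢
          linarith
      have ez : G z j = G (shz (-(q * m) - 2 * R) y) j := by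
        apply hG
        intro l hl
        obtain ⟨hl1, hl2⟩ := hwin l hl
        rw [hz l hl1 hl2, shz_apply]
        congr 1
        ring
      have ez0 : G z0 j = G (shz (-(q * m) - 2 * R) x) j := by
        apply hG
        intro l hl
        obtain ⟨hl1, hl2⟩ := hwin l hl
        rw [hz0 l hl1 hl2, shz_apply]
        congr 1
        ring
      rw [ez, ez0, hc.shz, hc.shz, hxy]
  · intro q hq
    have e : ∀ a : ℕ, a < m → (q * m + (a : ℤ)) / (m : ℤ) = q := by
      intro a ha
      apply ediv_eq hm'
      · linarith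
      · have : (a : ℤ) < m := by exact_mod_cast ha
        linarith
    by_cases hbad : bad q
    · -- then `z` carries `y` there, and `y ≠ x` at `i0`
      have hi0m : (i0 + 2 * R).toNat < m := by omega
      have := congrFun hq ⟨(i0 + 2 * R).toNat, hi0m⟩
      simp only [z, α, e _ hi0m, hbad, if_true] at this
      have hcast : ((i0 + 2 * (R : ℤ)).toNat : ℤ) = i0 + 2 * R :=
        Int.toNat_of_nonneg (by positivity)
      rw [hcast] at this
      apply hi0
      rw [show i0 + 2 * (R : ℤ) - 2 * R = i0 by ring] at this
      rw [← this]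
      congr 1
      ring
    · apply hbad
      intro a ha
      have := congrFun hq ⟨a, ha⟩
      simp only [z, α, e a ha, hbad, if_false] at this
      exact this

/-- A point has at most `|A| ^ (2 R)` preimages of a given spatial period. -/
theorem preimages_le [Finite A] {G : (ℤ → A) → (ℤ → A)} {R : ℕ} (hc : Comm G)
    (hG : HasRadius G R) (hs : Surjective G) {p : ℕ} (hp : 0 < p) (y : ℤ → A)
    (U : Finset (ℤ → A)) (hU : ∀ x ∈ U, x ∈ Per A p) (hy : ∀ x ∈ U, G x = y) :
    U.card ≤ (Nat.card A) ^ (2 * R) := by
  classical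
  have : Fintype A := Fintype.ofFinite A
  have hp' : (0 : ℤ) < p := by exact_mod_cast hp
  have hinj : Set.InjOn (fun (x : ℤ → A) (a : Fin (2 * R)) => x (a : ℕ)) (U : Set (ℤ → A)) := by
    intro x1 hx1 x2 hx2 h12
    have hx1' := hU x1 hx1
    have hx2' := hU x2 hx2
    have hag : ∀ i : ℤ, 0 ≤ i → i < 2 * R → x1 i = x2 i := by
      intro i hi0 hi1
      obtain ⟨a, ha⟩ := Int.eq_ofNat_of_zero_le hi0
      have ha2 : a < 2 * R := by omega
      have := congrFun h12 ⟨a, ha2⟩
      simp only at this
      rw [ha]
      exact this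
    have hagp : ∀ i : ℤ, (p : ℤ) ≤ i → i < p + 2 * R → x1 i = x2 i := by
      intro i hi0 hi1
      have e1 := Per_add_mul hx1' 1 (i - p)
      have e2 := Per_add_mul hx2' 1 (i - p)
      rw [show i - p + 1 * p = i by ring] at e1 e2
      rw [e1, e2]
      exact hag _ (by linarith) (by linarith)
    let z : ℤ → A := fun i => if 0 ≤ i ∧ i < p then x2 i else x1 i
    have hz1 : ∀ i : ℤ, i < 2 * R → z i = x1 i := by
      intro i hi
      simp only [z]
      split_ifs with hif
      · exact (hag i hif.1 hi).symm
      · rfl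
    have hz2 : ∀ i : ℤ, 0 ≤ i → i < p + 2 * R → z i = x2 i := by
      intro i hi hi2
      simp only [z]
      split_ifs with hif
      · rfl
      · push Not at hif
        exact hagp i (hif hi) hi2
    have hz3 : ∀ i : ℤ, (p : ℤ) ≤ i → z i = x1 i := by
      intro i hi
      simp only [z]
      rw [if_neg]
      intro hcon
      linarith [hcon.2]
    have hGz : G z = G x1 := by
      funext i
      have hx12 : G x1 = G x2 := by rw [hy x1 hx1, hy x2 hx2]
      rcases lt_or_ge i R with hi | hi
      · apply hG
        intro j hj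
        have hj' := abs_le.1 hj
        apply hz1
        linarith
      · rcases lt_or_ge i (p + R) with hi2 | hi2
        · rw [hx12]
          apply hG
          intro j hj
          have hj' := abs_le.1 hj
          apply hz2
          · linarith
          · linarith
        · apply hG
          intro j hj
          have hj' := abs_le.1 hj
          apply hz3
          linarith
    have hzx : z = x1 := by
      apply preinjective hc hG hs z x1 p _ hz3 hGz
      intro i hi
      apply hz1
      have : (0 : ℤ) ≤ 2 * R := by positivity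
      linarith
    apply Per_ext hp hx1' hx2' 0
    intro a ha
    rw [← hzx]
    simp only [z, zero_add]
    rw [if_pos]
    constructor
    · positivity
    · exact_mod_cast ha
  have h1 : U.card = (U.image (fun (x : ℤ → A) (a : Fin (2 * R)) => x (a : ℕ))).card :=
    (Finset.card_image_of_injOn hinj).symm
  rw [h1]
  calc _ ≤ Fintype.card (Fin (2 * R) → A) := Finset.card_le_univ _
    _ = _ := by simp [Nat.card_eq_fintype_card]

end CurveTrace
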