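import Pool.Agent.Lib_c1afad.Words

/-!
# Transients of almost one-to-one surjective cellular automata
-/

namespace CurveTrace

open Function

variable {A : Type*}

/-- Two points with the same image that agree on two windows of length `2 R` agree between. -/
theorem agree_between [Finite A] {G : (ℤ → A) → (ℤ → A)} {R : ℕ} (hc : Comm G)
    (hG : HasRadius G R) (hs : Surjective G) {x y : ℤ → A} (hxy : G x = G y) (c : ℤ) (L : ℕ)
    (h1 : ∀ a : ℕ, a < 2 * R → x (c + a) = y (c + a))
    (h2 : ∀ a : ℕ, a < 2 * R → x (c + L + a) = y (c + L + a)) :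
    ∀ a : ℕ, a < L → x (c + a) = y (c + a) := by
  classical
  -- move `c` to `0`
  have key : ∀ x y : ℤ → A, G x = G y → (∀ a : ℕ, a < 2 * R → x a = y a) →
      (∀ a : ℕ, a < 2 * R → x (L + a) = y (L + a)) → ∀ a : ℕ, a < L → x a = y a := by
    intro x1 x2 hx12 hag hagp
    have hag' : ∀ i : ℤ, 0 ≤ i → i < 2 * R → x1 i = x2 i := by
      intro i hi0 hi1
      obtain ⟨a, rfl⟩ := Int.eq_ofNat_of_zero_le hi0
      exact hag a (by exact_mod_cast hi1)
    have hagp' : ∀ i : ℤ, (L : ℤ) ≤ i → i < L + 2 * R → x1 i = x2 i := by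
      intro i hi0 hi1
      obtain ⟨a, ha⟩ := Int.eq_ofNat_of_zero_le (a := i - L) (by linarith)
      have := hagp a (by omega)
      rw [show (L : ℤ) + (a : ℤ) = i by rw [← ha]; ring] at this
      exact this
    let z : ℤ → A := fun i => if 0 ≤ i ∧ i < L then x2 i else x1 i
    have hz1 : ∀ i : ℤ, i < 2 * R → z i = x1 i := by
      intro i hi
      simp only [z]
      split_ifs with hif
      · exact (hag' i hif.1 hi).symm
      · rfl
    have hz2 : ∀ i : ℤ, 0 ≤ i → i < L + 2 * R → z i = x2 i := by
      intro i hi hi2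
      simp only [z]
      split_ifs with hif
      · rfl
      · push Not at hif
        exact hagp' i (hif hi) hi2
    have hz3 : ∀ i : ℤ, (L : ℤ) ≤ i → z i = x1 i := by
      intro i hi
      simp only [z]
      rw [if_neg]
      intro hcon
      linarith [hcon.2]
    have hGz : G z = G x1 := by
      funext i
      rcases lt_or_ge i R with hi | hi
      · apply hG
        intro j hj
        have hj' := abs_le.1 hj
        apply hz1
        linarith
      · rcases lt_or_ge i (L + R) with hi2 | hi2
        · rw [hx12]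
          apply hG
          intro j hj
          have hj' := abs_le.1 hj
          apply hz2
          · linarith
          · linarith
        · apply hG
          intro j hj
          have hj' := abs_le.1 hj
          apply hz3
          linarith
    have hzx : z = x1 := by
      apply preinjective hc hG hs z x1 L _ hz3 hGz
      intro i hi
      apply hz1
      have : (0 : ℤ) ≤ 2 * R := by positivity
      linarith
    intro a ha
    rw [← hzx]
    simp only [z]
    rw [if_pos]
    constructor
    · positivity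
    · exact_mod_cast ha
  intro a ha
  have := key (shz c x) (shz c y) (by rw [hc.shz, hc.shz, hxy])
    (fun a ha => by
      have := h1 a ha
      rw [shz_apply, shz_apply, add_comm]
      exact this)
    (fun a ha => by
      have := h2 a ha
      rw [shz_apply, shz_apply, show (L : ℤ) + a + c = c + L + a by ring]
      exact this) a ha
  rw [shz_apply, shz_apply, add_comm] at this
  exact this

/-- The word `m0` of length `l` is magic for `F`: every point in which it occurs at `0` has all
its preimages equal on some fixed window of length `2 r`. -/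
def Magic (F : (ℤ → A) → (ℤ → A)) (r l : ℕ) (m0 : ℤ → A) (c : ℤ) : Prop :=
  ∀ x y : ℤ → A, F x = F y → (∀ i : ℤ, 0 ≤ i → i < l → F x i = m0 i) →
    ∀ a : ℕ, a < 2 * r → x (c + a) = y (c + a)

/-- If a point has exactly one preimage then there is a magic word. -/
theorem exists_magic [Finite A] [TopologicalSpace A] [DiscreteTopology A]
    {F : (ℤ → A) → (ℤ → A)} (hcont : Continuous F) (hc : Comm F) (r : ℕ) (z0 : ℤ → A)
    (hz0 : ∃! x, F x = z0) : ∃ (l : ℕ) (m0 : ℤ → A) (c : ℤ), 0 < l ∧ Magic F r l m0 c := by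
  classical
  obtain ⟨x0, hx0, huniq⟩ := hz0
  let K : Set ((ℤ → A) × (ℤ → A)) := {q | F q.1 = F q.2 ∧ ∃ a ∈ Finset.range (2 * r),
    q.1 ((a : ℕ) : ℤ) ≠ q.2 ((a : ℕ) : ℤ)}
  have hKclosed : IsClosed K := by
    have e : K = {q : (ℤ → A) × (ℤ → A) | F q.1 = F q.2} ∩ ⋃ a ∈ Finset.range (2 * r),
        {q : (ℤ → A) × (ℤ → A) | q.1 ((a : ℕ) : ℤ) ≠ q.2 ((a : ℕ) : ℤ)} := by
      ext q
      simp only [K, Set.mem_setOf_eq, Set.mem_inter_iff, Set.mem_iUnion, exists_prop]
    rw [e]
    apply IsClosed.inter
    · exact isClosed_eq (hcont.comp continuous_fst) (hcont.comp continuous_snd)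
    · apply isClosed_biUnion_finset
      intro a _
      have h1 : Continuous fun q : (ℤ → A) × (ℤ → A) => (q.1 (a : ℤ), q.2 (a : ℤ)) :=
        ((continuous_apply _).comp continuous_fst).prodMk
          ((continuous_apply _).comp continuous_snd)
      exact (isClosed_discrete {p : A × A | p.1 ≠ p.2}).preimage h1
  have hKc : IsCompact K := hKclosed.isCompact
  have himg : IsClosed ((fun q : (ℤ → A) × (ℤ → A) => F q.1) '' K) :=
    (hKc.image (hcont.comp continuous_fst)).isClosed
  have hz0not : z0 ∉ (fun q : (ℤ → A) × (ℤ → A) => F q.1) '' K := by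
    rintro ⟨q, ⟨hq1, a, _, hq2⟩, hq3⟩
    apply hq2
    have e1 : q.1 = x0 := huniq q.1 hq3
    have e2 : q.2 = x0 := huniq q.2 (hq1.symm.trans hq3)
    rw [e1, e2]
  have hnh := himg.isOpen_compl.mem_nhds hz0not
  rw [nhds_pi, Filter.mem_pi] at hnh
  obtain ⟨I, hI, t, ht, htV⟩ := hnh
  obtain ⟨M, hM⟩ : ∃ M : ℕ, ∀ i ∈ I, |i| ≤ (M : ℤ) := by
    obtain ⟨M, hM⟩ := (hI.image fun i => i.natAbs).bddAbove
    refine ⟨M, fun i hi => ?_⟩
    have := hM (Set.mem_image_of_mem (fun i => i.natAbs) hi)
    rw [Int.abs_eq_natAbs]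
    exact_mod_cast this
  refine ⟨2 * M + 1, fun i => z0 (i - M), M, by omega, ?_⟩
  intro x y hxy hx a ha
  by_contra hne
  -- shift by `M`
  have hmem : F (shz (M : ℤ) x) ∈ (Set.pi I t) := by
    intro i hi
    have h1 := abs_le.1 (hM i hi)
    have h3 := hx (i + M) (by linarith) (by push_cast; linarith)
    have h4 : F x (i + M) = z0 i := by
      rw [h3]
      change z0 (i + (M : ℤ) - M) = z0 i
      rw [add_sub_cancel_right]
    rw [hc.shz, shz_apply, h4]
    exact mem_of_mem_nhds (ht i)
  apply htV hmem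
  refine ⟨(shz (M : ℤ) x, shz (M : ℤ) y), ⟨by
    simp only
    rw [hc.shz, hc.shz, hxy], a, Finset.mem_range.2 ha, ?_⟩, rfl⟩
  simp only [shz_apply]
  rw [add_comm]
  exact hne

section

variable [Finite A] {F : (ℤ → A) → (ℤ → A)} {r l : ℕ} {m0 : ℤ → A} {c : ℤ}

/-- The periodic points in which the word does not occur. -/
def NoWord (A : Type*) (n l : ℕ) (m0 : ℤ → A) : Set (ℤ → A) :=
  {z | z ∈ Per A n ∧ ∀ b : ℤ, ∃ i : ℤ, 0 ≤ i ∧ i < l ∧ z (b + i) ≠ m0 i}

/-- A periodic point in which the magic word occurs has at most one preimage. -/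
theorem unique_preimage (hc : Comm F) (hr : HasRadius F r) (hs : Surjective F)
    (hm : Magic F r l m0 c) {n : ℕ} (hn : 0 < n) {z x y : ℤ → A} (hz : z ∈ Per A n)
    (hzw : z ∉ NoWord A n l m0) (hx : F x = z) (hy : F y = z) : x = y := by
  have hn' : (0 : ℤ) < n := by exact_mod_cast hn
  simp only [NoWord, Set.mem_setOf_eq, hz, true_and, not_forall, not_exists, not_and,
    ne_eq, not_not] at hzw
  obtain ⟨b, hb⟩ := hzw
  have hag : ∀ (q : ℤ) (a : ℕ), a < 2 * r → x (b + c + q * n + a) = y (b + c + q * n + a) := by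
    intro q a ha
    have := hm (shz (b + q * n) x) (shz (b + q * n) y) (by rw [hc.shz, hc.shz, hx, hy])
      (by
        intro i hi0 hi1
        rw [hc.shz, hx, shz_apply, show i + (b + q * (n : ℤ)) = (b + i) + q * n by ring,
          Per_add_mul hz]
        exact hb i hi0 hi1) a ha
    rw [shz_apply, shz_apply, show c + (a : ℤ) + (b + q * n) = b + c + q * n + a by ring] at this
    exact this
  funext i
  set q := (i - (b + c)) / (n : ℤ) with hq
  have h1 : (b + c) + q * n ≤ i := by
    have := Int.ediv_mul_le (i - (b + c)) hn'.ne'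
    rw [← hq] at this
    linarith
  have h2 : i < (b + c) + q * n + n := by
    have := Int.lt_ediv_add_one_mul_self (i - (b + c)) hn'
    rw [← hq] at this
    linarith
  obtain ⟨a, ha⟩ := Int.eq_ofNat_of_zero_le (a := i - (b + c + q * n)) (by linarith)
  have := agree_between hc hr hs (hx.trans hy.symm) (b + c + q * n) n (hag q)
    (fun a ha => by
      have := hag (q + 1) a ha
      rw [show b + c + (q + 1) * (n : ℤ) + (a : ℤ) = b + c + q * n + n + a by ring] at this
      exact this) a (by omega)
  rw [show b + c + q * (n : ℤ) + (a : ℤ) = i by rw [← ha]; ring] at this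
  exact this

/-- The points of spatial period `n` that are periodic after `T` steps. -/
def Late (F : (ℤ → A) → (ℤ → A)) (n T : ℕ) : Set (ℤ → A) :=
  {x | x ∈ Per A n ∧ F^[T] x ∈ JPer F n}

theorem JPer_map (hc : Comm F) {n : ℕ} {x : ℤ → A} (hx : x ∈ JPer F n) : F x ∈ JPer F n := by
  obtain ⟨h1, q, hq, h2⟩ := hx
  refine ⟨Per_map hc h1, q, hq, ?_⟩
  rw [← iterate_succ_apply, iterate_succ_apply', h2]

/-- Preimages in `Per` of a set. -/
theorem card_preimage_le (hc : Comm F) (hr : HasRadius F r) (hs : Surjective F)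
    (hm : Magic F r l m0 c) {n : ℕ} (hn : 0 < n) (D : Set (ℤ → A)) (hD : D ⊆ Per A n) :
    {x | x ∈ Per A n ∧ F x ∈ D}.ncard ≤
      D.ncard + (Nat.card A) ^ (2 * r) * (NoWord A n l m0).ncard := by
  classical
  have hPfin : (Per A n).Finite := Per_finite hn
  have hfin1 : {x | x ∈ Per A n ∧ F x ∈ D}.Finite := hPfin.subset fun x hx => hx.1
  have hDfin : D.Finite := hPfin.subset hD
  have hNfin : (NoWord A n l m0).Finite := hPfin.subset fun x hx => hx.1
  let U1 : Set (ℤ → A) := {x | x ∈ Per A n ∧ F x ∈ D ∧ F x ∉ NoWord A n l m0}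
  let U2 : Set (ℤ → A) := {x | x ∈ Per A n ∧ F x ∈ NoWord A n l m0}
  have hU1fin : U1.Finite := hPfin.subset fun x hx => hx.1
  have hU2fin : U2.Finite := hPfin.subset fun x hx => hx.1
  have hsub : {x | x ∈ Per A n ∧ F x ∈ D} ⊆ U1 ∪ U2 := by
    rintro x ⟨h1, h2⟩
    by_cases h3 : F x ∈ NoWord A n l m0
    · exact Or.inr ⟨h1, h3⟩
    · exact Or.inl ⟨h1, h2, h3⟩
  have h1 : U1.ncard ≤ D.ncard := by
    apply Set.ncard_le_ncard_of_injOn F (fun x hx => hx.2.1) _ hDfin
    intro x hx y hy hxy
    exact unique_preimage hc hr hs hm hn (Per_map hc hx.1) hx.2.2 rfl hxy.symm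
  have h2 : U2.ncard ≤ (Nat.card A) ^ (2 * r) * (NoWord A n l m0).ncard := by
    rw [Set.ncard_eq_toFinset_card _ hU2fin]
    have := Finset.card_le_mul_card_image (f := F) hU2fin.toFinset ((Nat.card A) ^ (2 * r)) (by
      intro e _
      apply preimages_le hc hr hs hn e
      · intro x hx
        exact (hU2fin.mem_toFinset.1 (Finset.mem_filter.1 hx).1).1
      · intro x hx
        exact (Finset.mem_filter.1 hx).2)
    refine this.trans (Nat.mul_le_mul_left _ ?_)
    rw [Set.ncard_eq_toFinset_card _ hNfin]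
    apply Finset.card_le_card
    intro y hy
    obtain ⟨x, hx, rfl⟩ := Finset.mem_image.1 hy
    exact hNfin.mem_toFinset.2 (hU2fin.mem_toFinset.1 hx).2
  calc _ ≤ (U1 ∪ U2).ncard := Set.ncard_le_ncard hsub (hU1fin.union hU2fin)
    _ ≤ U1.ncard + U2.ncard := Set.ncard_union_le _ _
    _ ≤ _ := Nat.add_le_add h1 h2

/-- Main counting inequality. -/
theorem late_le (hc : Comm F) (hr : HasRadius F r) (hs : Surjective F)
    (hm : Magic F r l m0 c) {n : ℕ} (hn : 0 < n) (T : ℕ) :
    (Late F n T).ncard ≤ (JPer F n).ncard +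
      (T * T) * ((Nat.card A) ^ (2 * r) * (NoWord A n l m0).ncard) := by
  classical
  have hPfin : (Per A n).Finite := Per_finite hn
  set K := (Nat.card A) ^ (2 * r) * (NoWord A n l m0).ncard with hK
  -- points entering exactly at time `t + 1`
  let Dt : ℕ → Set (ℤ → A) := fun t => {x | x ∈ Per A n ∧ F^[t] x ∉ JPer F n ∧
    F^[t + 1] x ∈ JPer F n}
  have hDfin : ∀ t, (Dt t).Finite := fun t => hPfin.subset fun x hx => hx.1
  have hD : ∀ t, (Dt t).ncard ≤ (t + 1) * K := by
    intro t
    induction t with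
    | zero =>
      -- a point outside `JPer` with image inside has image in `NoWord`
      have hsub : Dt 0 ⊆ {x | x ∈ Per A n ∧ F x ∈ NoWord A n l m0} := by
        rintro x ⟨h1, h2, h3⟩
        simp only [zero_add, iterate_one, iterate_zero, id_eq] at h2 h3
        refine ⟨h1, ?_⟩
        by_contra hcon
        apply h2
        -- another preimage in `JPer`
        obtain ⟨h4, q, hq, h5⟩ := h3
        have h6 : F (F^[q - 1] (F x)) = F x := by
          have h8 := iterate_succ_apply' F (q - 1) (F x)
          rw [show (q - 1).succ = q by omega, h5] at h8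
          exact h8.symm
        have h7 : F^[q - 1] (F x) = x := unique_preimage hc hr hs hm hn h4 hcon h6 rfl
        rw [← h7]
        refine ⟨Per_iterate hc h4 _, q, hq, ?_⟩
        rw [← iterate_add_apply, add_comm, iterate_add_apply, h5]
      have hfin : {x | x ∈ Per A n ∧ F x ∈ NoWord A n l m0}.Finite :=
        hPfin.subset fun x hx => hx.1
      refine (Set.ncard_le_ncard hsub hfin).trans ?_
      -- bound as in `card_preimage_le`
      rw [zero_add, one_mul, hK, Set.ncard_eq_toFinset_card _ hfin]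
      have hNfin : (NoWord A n l m0).Finite := hPfin.subset fun x hx => hx.1
      have := Finset.card_le_mul_card_image (f := F) hfin.toFinset ((Nat.card A) ^ (2 * r)) (by
        intro e _
        apply preimages_le hc hr hs hn e
        · intro x hx
          exact (hfin.mem_toFinset.1 (Finset.mem_filter.1 hx).1).1
        · intro x hx
          exact (Finset.mem_filter.1 hx).2)
      refine this.trans (Nat.mul_le_mul_left _ ?_)
      rw [Set.ncard_eq_toFinset_card _ hNfin]
      apply Finset.card_le_card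
      intro y hy
      obtain ⟨x, hx, rfl⟩ := Finset.mem_image.1 hy
      exact hNfin.mem_toFinset.2 (hfin.mem_toFinset.1 hx).2
    | succ t ih =>
      have hsub : Dt (t + 1) ⊆ {x | x ∈ Per A n ∧ F x ∈ Dt t} := by
        rintro x ⟨h1, h2, h3⟩
        exact ⟨h1, Per_map hc h1, h2, h3⟩
      have hfin : {x | x ∈ Per A n ∧ F x ∈ Dt t}.Finite := hPfin.subset fun x hx => hx.1
      have h4 := card_preimage_le hc hr hs hm hn (Dt t) (fun x hx => hx.1)
      calc _ ≤ _ := Set.ncard_le_ncard hsub hfin
        _ ≤ (Dt t).ncard + K := h4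
        _ ≤ (t + 1) * K + K := Nat.add_le_add_right ih _
        _ = _ := by ring
  have hJfin : (JPer F n).Finite := hPfin.subset (JPer_subset _ _)
  induction T with
  | zero =>
    have : Late F n 0 ⊆ JPer F n := fun x hx => hx.2
    have := Set.ncard_le_ncard this hJfin
    simpa using this
  | succ T ih =>
    have hsub : Late F n (T + 1) ⊆ Late F n T ∪ Dt T := by
      rintro x ⟨h1, h2⟩
      by_cases h3 : F^[T] x ∈ JPer F n
      · exact Or.inl ⟨h1, h3⟩
      · exact Or.inr ⟨h1, h3, h2⟩
    have hLfin : (Late F n T).Finite := hPfin.subset fun x hx => hx.1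
    calc (Late F n (T + 1)).ncard ≤ (Late F n T ∪ Dt T).ncard :=
          Set.ncard_le_ncard hsub (hLfin.union (hDfin T))
      _ ≤ (Late F n T).ncard + (Dt T).ncard := Set.ncard_union_le _ _
      _ ≤ ((JPer F n).ncard + (T * T) * K) + (T + 1) * K := Nat.add_le_add ih (hD T)
      _ ≤ _ := by
          have : (T * T) * K + (T + 1) * K ≤ ((T + 1) * (T + 1)) * K := by
            rw [← Nat.add_mul]
            apply Nat.mul_le_mul_right
            nlinarith
          omega

end

end CurveTrace
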