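import Pool.Agent.Lib_c1afad.Growth

/-!
# Words in jointly periodic points
-/

namespace CurveTrace

open Function

variable {A : Type*}

theorem JPer_shz {F : (ℤ → A) → (ℤ → A)} (hc : Comm F) {p : ℕ} {x : ℤ → A}
    (hx : x ∈ JPer F p) (m : ℤ) : shz m x ∈ JPer F p := by
  obtain ⟨h1, q, hq, h2⟩ := hx
  refine ⟨Per_shz h1 m, q, hq, ?_⟩
  rw [(hc.iterate q).shz, h2]

/-- The number of jointly periodic points of spatial period `l M` when the word `u` of length
`l` occurs in none of them. -/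
theorem avoid_count [Finite A] {F : (ℤ → A) → (ℤ → A)} (hc : Comm F) (l : ℕ) (hl : 0 < l)
    (u : ℤ → A) (hcon : ¬ ∃ p : ℕ, 0 < p ∧ ∃ x ∈ JPer F p, ∀ i : ℤ, 0 ≤ i → i < l → x i = u i)
    (M : ℕ) (hM : 0 < M) : (JPer F (l * M)).ncard ≤ (Nat.card A ^ l - 1) ^ M := by
  classical
  have : Fintype A := Fintype.ofFinite A
  push Not at hcon
  let u' : Fin l → A := fun a => u (a : ℕ)
  have hav : ∀ p : ℕ, 0 < p → ∀ x ∈ JPer F p, ∀ c : ℤ,
      (fun a : Fin l => x (c + (a : ℕ))) ≠ u' := by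
    intro p hp x hx c hcu
    obtain ⟨i, hi0, hi1, hi⟩ := hcon p hp (shz c x) (JPer_shz hc hx c)
    apply hi
    obtain ⟨a, rfl⟩ := Int.eq_ofNat_of_zero_le hi0
    have := congrFun hcu ⟨a, by exact_mod_cast hi1⟩
    simp only [u'] at this
    rw [shz_apply, add_comm]
    exact this
  have hp : 0 < l * M := Nat.mul_pos hl hM
  have hEfin : (JPer F (l * M)).Finite := (Per_finite hp).subset (JPer_subset _ _)
  have : Fintype (JPer F (l * M)) := hEfin.fintype
  let g : JPer F (l * M) → (Fin M → {v : Fin l → A // v ≠ u'}) :=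
    fun x q => ⟨fun a => x.1 (((q : ℕ) : ℤ) * l + (a : ℕ)), hav _ hp x.1 x.2 _⟩
  have hg : Injective g := by
    intro x y hxy
    apply Subtype.ext
    apply Per_ext hp x.2.1 y.2.1 0
    intro i hi
    have h1 : i / l < M := Nat.div_lt_of_lt_mul hi
    have h3 := congrArg Subtype.val (congrFun hxy ⟨i / l, h1⟩)
    have h4 := congrFun h3 ⟨i % l, Nat.mod_lt _ hl⟩
    simp only [g] at h4
    have e : ((i / l : ℕ) : ℤ) * l + ((i % l : ℕ) : ℤ) = 0 + (i : ℤ) := by
      rw [zero_add]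
      exact_mod_cast Nat.div_add_mod' i l
    rw [e] at h4
    exact h4
  have h5 := Fintype.card_le_of_injective g hg
  have h6 : Fintype.card {v : Fin l → A // v ≠ u'} = Nat.card A ^ l - 1 := by
    rw [Fintype.card_subtype_compl (fun v => v = u')]
    simp [Nat.card_eq_fintype_card]
  rw [Fintype.card_fun, Fintype.card_fin, h6] at h5
  rw [Set.ncard_eq_toFinset_card' (JPer F (l * M)), Set.toFinset_card]
  exact h5

/-- If the points of `S` share a trace and `S` has more than `(|A| ^ l - 1) ^ (n / l)` elements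
then every word of length `l` occurs in a jointly periodic point. -/
theorem words [Finite A] {F : (ℤ → A) → (ℤ → A)} {r k w n : ℕ} (hc : Comm F)
    (hr : HasRadius F r) (hs : Surjective F)
    (h2 : 2 * r ≤ w) (hk : r + k ≤ w) (hn0 : 0 < n) (h : ℕ → ℤ)
    (hcv : ∀ s, |h (s + 1) - h s| ≤ (k : ℤ)) (S : Set (ℤ → A)) (hS : S ⊆ Per A n)
    (htr : ∀ x ∈ S, ∀ y ∈ S, ∀ s a : ℕ, a < w → F^[s] x (h s + a) = F^[s] y (h s + a))
    (l : ℕ) (hl : 0 < l) (hcard : (Nat.card A ^ l - 1) ^ n < S.ncard ^ l) (u : ℤ → A) :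
    ∃ p : ℕ, 0 < p ∧ ∃ x ∈ JPer F p, ∀ i : ℤ, 0 ≤ i → i < l → x i = u i := by
  classical
  have : Fintype A := Fintype.ofFinite A
  by_contra hcon
  have hcount : ∀ j : ℕ, 0 < j →
      (JPer F (l * j * n)).ncard ≤ (Nat.card A ^ l - 1) ^ (j * n) := by
    intro j hj
    rw [mul_assoc]
    exact avoid_count hc l hl u hcon (j * n) (Nat.mul_pos hj hn0)
  obtain ⟨K, hK⟩ := growth hc hr hs h2 hk hn0 h hcv S hS htr
  set a := S.ncard ^ l with ha
  set b := (Nat.card A ^ l - 1) ^ n with hb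
  have hab : ∀ j : ℕ, 0 < j → a ^ j ≤ K * b ^ j := by
    intro j hj
    have h7 := hK (l * j) (Nat.mul_pos hl hj)
    have h8 := hcount j hj
    rw [ha, hb, ← pow_mul, ← pow_mul, mul_comm n j]
    exact h7.trans (Nat.mul_le_mul_left _ h8)
  have ha0 : 0 < a := lt_of_le_of_lt (Nat.zero_le _) hcard
  have hKpos : 0 < K := by
    rcases Nat.eq_zero_or_pos K with h0 | h0
    · have := hab 1 one_pos
      rw [h0] at this
      simp only [pow_one, zero_mul, nonpos_iff_eq_zero] at this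
      omega
    · exact h0
  have hlt : (b : ℝ) / a < 1 := by
    rw [div_lt_one (by exact_mod_cast ha0)]
    exact_mod_cast hcard
  obtain ⟨j, hj⟩ := exists_pow_lt_of_lt_one (y := (b : ℝ) / a) (x := 1 / (K : ℝ))
    (by positivity) hlt
  have hnn : (0 : ℝ) ≤ (b : ℝ) / a := by positivity
  have hj' : ((b : ℝ) / a) ^ (j + 1) < 1 / (K : ℝ) := by
    refine lt_of_le_of_lt ?_ hj
    apply pow_le_pow_of_le_one hnn hlt.le
    omega
  have h9 := hab (j + 1) (Nat.succ_pos j)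
  have h9' : (a : ℝ) ^ (j + 1) ≤ K * (b : ℝ) ^ (j + 1) := by exact_mod_cast h9
  have ha0' : (0 : ℝ) < a := by exact_mod_cast ha0
  have hK' : (0 : ℝ) < K := by exact_mod_cast hKpos
  rw [div_pow, div_lt_div_iff₀ (by positivity) hK'] at hj'
  linarith

theorem mem_JP_of {F : (ℤ → A) → (ℤ → A)} {p : ℕ} (hp : 0 < p) {x : ℤ → A}
    (hx : x ∈ JPer F p) : x ∈ JP F := ⟨⟨p, hp, hx.1⟩, hx.2⟩

theorem dense_of_words [TopologicalSpace A] [DiscreteTopology A]
    {F : (ℤ → A) → (ℤ → A)} (hc : Comm F)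
    (hw : ∀ l : ℕ, 0 < l → ∀ u : ℤ → A, ∃ p : ℕ, 0 < p ∧ ∃ x ∈ JPer F p,
      ∀ i : ℤ, 0 ≤ i → i < l → x i = u i) : Dense (JP F) := by
  intro x0
  rw [mem_closure_iff_nhds]
  intro V hV
  rw [nhds_pi, Filter.mem_pi] at hV
  obtain ⟨I, hI, t, ht, htV⟩ := hV
  obtain ⟨M, hM⟩ : ∃ M : ℕ, ∀ i ∈ I, |i| ≤ (M : ℤ) := by
    obtain ⟨M, hM⟩ := (hI.image fun i => i.natAbs).bddAbove
    refine ⟨M, fun i hi => ?_⟩
    have := hM (Set.mem_image_of_mem (fun i => i.natAbs) hi)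
    rw [Int.abs_eq_natAbs]
    exact_mod_cast this
  obtain ⟨p, hp, x, hx, hxu⟩ := hw (2 * M + 1) (by omega) (fun i => x0 (i - M))
  refine ⟨shz M x, ?_, mem_JP_of hp (JPer_shz hc hx M)⟩
  apply htV
  intro i hi
  have h1 := abs_le.1 (hM i hi)
  have h3 := hxu (i + M) (by linarith) (by push_cast; linarith)
  rw [shz_apply, h3]
  have : i + (M : ℤ) - M = i := by ring
  rw [this]
  exact mem_of_mem_nhds (ht i)

end CurveTrace
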